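import Pool.Agent.Helper91.Gen

set_option autoImplicit false

namespace Pool.Agent.Helper32K9.Hong

open Finset Pool.Agent.Helper91.Gen

variable {V : Type} [Fintype V] {k : ℕ}

/-- unit vectors with inner product of absolute value one agree up to sign -/
theorem unit_pm {y z : Fin k → ℝ} (hy : ∑ a, y a ^ 2 = 1) (hz : ∑ a, z a ^ 2 = 1)
    (h : |∑ a, y a * z a| = 1) : ∀ a, y a = (∑ a, y a * z a) * z a := by
  set t := ∑ a, y a * z a with ht
  have ht2 : t ^ 2 = 1 := by rw [← sq_abs, h]; norm_num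
  have h0 : ∑ a, (y a - t * z a) ^ 2 = 0 := by
    have : ∀ a, (y a - t * z a) ^ 2 = y a ^ 2 - 2 * t * (y a * z a) + t ^ 2 * z a ^ 2 := by
      intro a; ring
    simp only [this, Finset.sum_add_distrib, Finset.sum_sub_distrib, ← Finset.mul_sum]
    rw [hy, hz, ← ht]
    nlinarith
  intro a
  have h1 := (Finset.sum_eq_zero_iff_of_nonneg (fun a _ => sq_nonneg (y a - t * z a))).mp h0 a
    (Finset.mem_univ a)
  have h2 := pow_eq_zero_iff (two_ne_zero) |>.mp h1
  linarith

/-- the combinatorial part of the equality analysis -/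
theorem lines_of_eq (r : V → ℝ) (y : V → Fin k → ℝ) (hk : 2 ≤ k) (hr0 : ∀ i, 0 ≤ r i)
    (hunit : ∀ i, r i ≠ 0 → ∑ a, y i a ^ 2 = 1) (q : ℝ) (hq : 0 < q)
    (hq2 : q ^ 2 * (k + 2) = 1) (hR : 0 < ∑ i, r i)
    (h2 : ∀ i j, r i ≠ 0 → r j ≠ 0 → |∑ a, y i a * y j a| = 1 ∨ |∑ a, y i a * y j a| = q)
    (h4 : ∑ i, ∑ j, r i * r j * (∑ a, y i a * y j a) ^ 4 ≤ 3 / ((k : ℝ) * (k + 2)) * (∑ i, r i) ^ 2) :
    ∃ v : Fin (k * (k + 1) / 2) → Fin k → ℝ, (∀ i, ∑ a, v i a ^ 2 = 1) ∧
      ∀ i j, i ≠ j → |∑ a, v i a * v j a| = q := by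
  classical
  have hkpos : (0 : ℝ) < k := by exact_mod_cast (by omega : 0 < k)
  have hk2 : (2 : ℝ) ≤ k := by exact_mod_cast hk
  have hq1 : q < 1 := by
    by_contra hcon
    push Not at hcon
    nlinarith [mul_pos hq hq]
  -- a largest set of mutually equiangular lines
  let good : Finset V → Prop := fun S => (∀ i ∈ S, r i ≠ 0) ∧
    ∀ i ∈ S, ∀ j ∈ S, i ≠ j → |∑ a, y i a * y j a| = q
  obtain ⟨S, hS, hmax⟩ : ∃ S : Finset V, good S ∧ ∀ T, good T → T.card ≤ S.card := by
    have hne : (Finset.univ.filter good).Nonempty := ⟨∅, by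
      simp only [Finset.mem_filter, Finset.mem_univ, true_and]
      exact ⟨by simp, by simp⟩⟩
    obtain ⟨S, hS, hm⟩ := Finset.exists_max_image (Finset.univ.filter good) Finset.card hne
    refine ⟨S, by simpa using hS, fun T hT => hm T (by simpa using hT)⟩
  obtain ⟨hS1, hS2⟩ := hS
  have hex : ∀ i, r i ≠ 0 → ∃ s ∈ S, |∑ a, y i a * y s a| = 1 := by
    intro i hi
    by_contra hcon
    push Not at hcon
    have hq' : ∀ s ∈ S, |∑ a, y i a * y s a| = q := fun s hs =>
      (h2 i s hi (hS1 s hs)).resolve_left (hcon s hs)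
    have hiS : i ∉ S := by
      intro h
      have h1 := hcon i h
      apply h1
      have : ∑ a, y i a * y i a = 1 := by
        have := hunit i hi
        simpa [sq] using this
      rw [this]; norm_num
    have hgood : good (insert i S) := by
      refine ⟨?_, ?_⟩
      · intro j hj
        rcases Finset.mem_insert.mp hj with rfl | hj
        · exact hi
        · exact hS1 j hj
      · intro j hj l hl hjl
        rcases Finset.mem_insert.mp hj with h | hj'
        · subst h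
          rcases Finset.mem_insert.mp hl with h' | hl'
          · exact absurd h'.symm hjl
          · exact hq' l hl'
        · rcases Finset.mem_insert.mp hl with h' | hl'
          · subst h'
            have : ∑ a, y j a * y l a = ∑ a, y l a * y j a := by
              apply Finset.sum_congr rfl; intro a _; ring
            rw [this]; exact hq' j hj'
          · exact hS2 j hj' l hl' hjl
    have := hmax _ hgood
    rw [Finset.card_insert_of_notMem hiS] at this
    omega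
  -- representatives
  let s : V → V := fun i => if h : r i ≠ 0 then (hex i h).choose else i
  have hsS : ∀ i, r i ≠ 0 → s i ∈ S := by
    intro i h
    simp only [s, h, ne_eq, not_false_eq_true, dif_pos]
    exact (hex i h).choose_spec.1
  have hs1 : ∀ i, r i ≠ 0 → |∑ a, y i a * y (s i) a| = 1 := by
    intro i h
    simp only [s, h, ne_eq, not_false_eq_true, dif_pos]
    exact (hex i h).choose_spec.2
  have hsame : ∀ i j, r i ≠ 0 → r j ≠ 0 → s i = s j → |∑ a, y i a * y j a| = 1 := by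
    intro i j hi hj hij
    have u1 := unit_pm (hunit i hi) (hunit (s i) (hS1 _ (hsS i hi))) (hs1 i hi)
    have u2 := unit_pm (hunit j hj) (hunit (s j) (hS1 _ (hsS j hj))) (hs1 j hj)
    have e : ∑ a, y i a * y j a = (∑ a, y i a * y (s i) a) * (∑ a, y j a * y (s j) a) := by
      have e1 : ∀ a, y i a * y j a = (∑ a, y i a * y (s i) a) * (∑ a, y j a * y (s j) a) *
          (y (s i) a ^ 2) := by
        intro a
        conv_lhs => rw [u1 a, u2 a, ← hij]
        rw [← hij]
        ring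
      rw [Finset.sum_congr rfl fun a _ => e1 a, ← Finset.mul_sum, hunit (s i) (hS1 _ (hsS i hi)),
        mul_one]
    rw [e, abs_mul, hs1 i hi, hs1 j hj, mul_one]
  -- weights
  let w : V → ℝ := fun v => ∑ i ∈ Finset.univ.filter (fun i => s i = v), r i
  have hwsum : ∑ v ∈ S, w v = ∑ i, r i := by
    have h1 : ∑ v ∈ S, w v = ∑ i ∈ Finset.univ.filter (fun i => s i ∈ S), r i := by
      simp only [w]
      rw [Finset.sum_filter]
      simp only [Finset.sum_filter]
      rw [Finset.sum_comm]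
      apply Finset.sum_congr rfl; intro i _
      rw [Finset.sum_ite_eq]
    rw [h1, Finset.sum_filter]
    apply Finset.sum_congr rfl; intro i _
    by_cases h : r i = 0
    · simp [h]
    · simp [hsS i h]
  have hw2 : ∑ v ∈ S, w v ^ 2 ≤ ∑ i, ∑ j, (if s i = s j then r i * r j else 0) := by
    have h1 : ∀ v, w v ^ 2 = ∑ i, ∑ j, (if s i = v ∧ s j = v then r i * r j else 0) := by
      intro v
      simp only [w]
      rw [sq, Finset.sum_mul_sum, Finset.sum_filter]
      apply Finset.sum_congr rfl; intro i _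
      by_cases hi : s i = v
      · simp only [hi, if_true, true_and]
        rw [Finset.sum_filter]
      · simp [hi]
    simp only [h1]
    rw [Finset.sum_comm]
    apply Finset.sum_le_sum; intro i _
    rw [Finset.sum_comm]
    apply Finset.sum_le_sum; intro j _
    by_cases hij : s i = s j
    · rw [if_pos hij]
      have h3 : ∀ v ∈ S, (if s i = v ∧ s j = v then r i * r j else 0)
          = if s i = v then r i * r j else 0 := by
        intro v _
        by_cases h : s i = v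
        · have h' : s j = v := by rw [← hij]; exact h
          simp [h, h']
        · simp [h]
      rw [Finset.sum_congr rfl h3, Finset.sum_ite_eq]
      have := mul_nonneg (hr0 i) (hr0 j)
      split_ifs <;> linarith
    · rw [if_neg hij]
      apply le_of_eq
      apply Finset.sum_eq_zero
      intro v _
      rw [if_neg]
      rintro ⟨h1, h2⟩
      exact hij (h1.trans h2.symm)
  -- lower bound for the fourth moment
  have h5 : ∀ i j, q ^ 4 * (r i * r j) + (1 - q ^ 4) * (if s i = s j then r i * r j else 0)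
      ≤ r i * r j * (∑ a, y i a * y j a) ^ 4 := by
    intro i j
    by_cases hi : r i = 0
    · simp [hi]
    by_cases hj : r j = 0
    · simp [hj]
    have hrr : 0 ≤ r i * r j := mul_nonneg (hr0 i) (hr0 j)
    have e4 : (∑ a, y i a * y j a) ^ 4 = |∑ a, y i a * y j a| ^ 4 := by
      calc (∑ a, y i a * y j a) ^ 4 = ((∑ a, y i a * y j a) ^ 2) ^ 2 := by ring
        _ = (|∑ a, y i a * y j a| ^ 2) ^ 2 := by rw [sq_abs]
        _ = _ := by ring
    have hq4 : q ^ 4 ≤ 1 := pow_le_one₀ hq.le hq1.le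
    rw [e4]
    by_cases hij : s i = s j
    · rw [if_pos hij, hsame i j hi hj hij]
      linarith
    · rw [if_neg hij]
      rcases h2 i j hi hj with h | h
      · rw [h]; nlinarith
      · rw [h]; linarith
  set R : ℝ := ∑ i, r i with hRdef
  have h6 : q ^ 4 * R ^ 2 + (1 - q ^ 4) * ∑ v ∈ S, w v ^ 2 ≤ 3 / ((k : ℝ) * (k + 2)) * R ^ 2 := by
    have hq4 : q ^ 4 ≤ 1 := pow_le_one₀ hq.le hq1.le
    calc q ^ 4 * R ^ 2 + (1 - q ^ 4) * ∑ v ∈ S, w v ^ 2
        ≤ q ^ 4 * R ^ 2 + (1 - q ^ 4) * ∑ i, ∑ j, (if s i = s j then r i * r j else 0) := by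
          have := mul_le_mul_of_nonneg_left hw2 (sub_nonneg.mpr hq4)
          linarith
      _ = ∑ i, ∑ j, (q ^ 4 * (r i * r j) + (1 - q ^ 4) * (if s i = s j then r i * r j else 0)) := by
          simp only [Finset.sum_add_distrib, ← Finset.mul_sum]
          congr 2
          rw [sq, hRdef, Finset.sum_mul_sum]
          simp only [Finset.mul_sum]
      _ ≤ _ := (Finset.sum_le_sum fun i _ => Finset.sum_le_sum fun j _ => h5 i j).trans h4
  -- Cauchy-Schwarz
  have h7 : R ^ 2 ≤ S.card * ∑ v ∈ S, w v ^ 2 := by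
    have := sq_sum_le_card_mul_sum_sq (s := S) (f := w)
    rw [hwsum] at this
    exact this
  have hcard : k * (k + 1) / 2 ≤ S.card := by
    have hR2 : 0 < R ^ 2 := by positivity
    have hkk : (k : ℝ) * q ^ 2 = 1 - 2 * q ^ 2 := by linarith
    have hq0 : q ^ 2 ≠ 0 := by positivity
    have hq4lt : q ^ 4 < 1 := pow_lt_one₀ hq.le hq1 (by norm_num)
    have hqq : q ^ 4 = 1 / ((k : ℝ) + 2) ^ 2 := by
      have : q ^ 2 = 1 / ((k : ℝ) + 2) := by
        rw [eq_div_iff (by positivity)]; exact hq2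
      calc q ^ 4 = (q ^ 2) ^ 2 := by ring
        _ = _ := by rw [this, div_pow, one_pow]
    -- the sum of squares is at most 2R²/(k(k+1))
    have h8 : ∑ v ∈ S, w v ^ 2 ≤ 2 / ((k : ℝ) * (k + 1)) * R ^ 2 := by
      have e1 : (1 - q ^ 4) * ∑ v ∈ S, w v ^ 2 ≤ (1 - q ^ 4) * (2 / ((k : ℝ) * (k + 1)) * R ^ 2) := by
        have e2 : (1 - q ^ 4) * (2 / ((k : ℝ) * (k + 1)) * R ^ 2)
            = 3 / ((k : ℝ) * (k + 2)) * R ^ 2 - q ^ 4 * R ^ 2 := by
          rw [hqq]
          field_simp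
          ring
        rw [e2]; linarith
      exact le_of_mul_le_mul_left e1 (by linarith)
    have h9 : R ^ 2 ≤ S.card * (2 / ((k : ℝ) * (k + 1)) * R ^ 2) :=
      h7.trans (mul_le_mul_of_nonneg_left h8 (Nat.cast_nonneg _))
    have h10 : (k : ℝ) * (k + 1) ≤ 2 * S.card := by
      have e3 : (S.card : ℝ) * (2 / ((k : ℝ) * (k + 1)) * R ^ 2) = (2 * S.card / ((k : ℝ) * (k + 1))) * R ^ 2 := by
        ring
      rw [e3] at h9
      have h11 : 1 ≤ 2 * (S.card : ℝ) / ((k : ℝ) * (k + 1)) := by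
        by_contra hcon
        push Not at hcon
        nlinarith
      rw [le_div_iff₀ (by positivity)] at h11
      linarith
    have h12 : k * (k + 1) ≤ 2 * S.card := by exact_mod_cast h10
    omega
  obtain ⟨T, hTS, hTc⟩ := Finset.exists_subset_card_eq hcard
  let e := T.equivFinOfCardEq hTc
  refine ⟨fun i => y (e.symm i), fun i => hunit _ (hS1 _ (hTS (e.symm i).2)), fun i j hij => ?_⟩
  apply hS2 _ (hTS (e.symm i).2) _ (hTS (e.symm j).2)
  intro h
  exact hij (e.symm.injective (Subtype.ext h))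

theorem ptwise (F G : V → V → ℝ) (h : ∀ i j, F i j ≤ G i j)
    (hs : ∑ i, ∑ j, G i j ≤ ∑ i, ∑ j, F i j) : ∀ i j, F i j = G i j := by
  have h1 : ∀ i, ∑ j, F i j ≤ ∑ j, G i j := fun i => Finset.sum_le_sum fun j _ => h i j
  intro i j
  by_contra hne
  have hlt : F i j < G i j := lt_of_le_of_ne (h i j) hne
  have h2 : ∑ j, F i j < ∑ j, G i j :=
    Finset.sum_lt_sum (fun j _ => h i j) ⟨j, Finset.mem_univ _, hlt⟩
  have h3 : ∑ i, ∑ j, F i j < ∑ i, ∑ j, G i j :=
    Finset.sum_lt_sum (fun i _ => h1 i) ⟨i, Finset.mem_univ _, h2⟩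
  linarith

/-- when the absolute sum of a rank `k` orthogonal projection is as large as possible there are
`k(k+1)/2` equiangular lines in dimension `k` -/
theorem abs_eq (x : Fin k → V → ℝ) (hk : 2 ≤ k)
    (hx : ∀ a b, ∑ i, x a i * x b i = if a = b then 1 else 0) (q : ℝ) (hq : 0 < q)
    (hq2 : q ^ 2 * (k + 2) = 1)
    (heq : (1 + 2 * q) * (1 - q) / (q * (1 + q)) * (Fintype.card V : ℝ) ≤
      ∑ i, ∑ j, |∑ a, x a i * x a j|) :
    ∃ v : Fin (k * (k + 1) / 2) → Fin k → ℝ, (∀ i, ∑ a, v i a ^ 2 = 1) ∧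
      ∀ i j, i ≠ j → |∑ a, v i a * v j a| = q := by
  classical
  have hkpos : (0 : ℝ) < k := by exact_mod_cast (by omega : 0 < k)
  have hk2 : (2 : ℝ) ≤ k := by exact_mod_cast hk
  set n : ℝ := (Fintype.card V : ℝ) with hn
  have hn0 : 0 ≤ n := Nat.cast_nonneg _
  let P : V → V → ℝ := fun i j => ∑ a, x a i * x a j
  let r : V → ℝ := fun i => Real.sqrt (∑ a, x a i ^ 2)
  let y : V → Fin k → ℝ := fun i a => x a i / r i
  let t : V → V → ℝ := fun i j => ∑ a, y i a * y j a
  have hr0 : ∀ i, 0 ≤ r i := fun i => Real.sqrt_nonneg _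
  have hr2 : ∀ i, r i ^ 2 = ∑ a, x a i ^ 2 := fun i => Real.sq_sqrt (Finset.sum_nonneg fun a _ => sq_nonneg _)
  have hz : ∀ i, r i = 0 → ∀ a, x a i = 0 := by
    intro i h a
    have h2 := hr2 i
    rw [h] at h2
    have h3 : ∑ a, x a i ^ 2 = 0 := by linarith [h2, (by norm_num : (0 : ℝ) ^ 2 = 0)]
    have h4 := (Finset.sum_eq_zero_iff_of_nonneg (fun a _ => sq_nonneg (x a i))).mp h3 a (Finset.mem_univ a)
    exact pow_eq_zero_iff (two_ne_zero) |>.mp h4
  have hry : ∀ i a, r i * y i a = x a i := by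
    intro i a
    by_cases h : r i = 0
    · rw [h, hz i h a]; ring
    · simp only [y]; field_simp
  have hunit : ∀ i, r i ≠ 0 → ∑ a, y i a ^ 2 = 1 := by
    intro i h
    have h2 := hr2 i
    have h3 : ∑ a, x a i ^ 2 = r i ^ 2 * ∑ a, y i a ^ 2 := by
      rw [Finset.mul_sum]
      apply Finset.sum_congr rfl; intro a _
      rw [← hry i a]; ring
    rw [h3] at h2
    have h4 : r i ^ 2 * ∑ a, y i a ^ 2 = r i ^ 2 * 1 := by linarith
    exact mul_left_cancel₀ (pow_ne_zero 2 h) h4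
  have hyle : ∀ i, ∑ a, y i a ^ 2 ≤ 1 := by
    intro i
    by_cases h : r i = 0
    · have : ∀ a, y i a = 0 := by intro a; simp [y, h]
      simp [this]
    · exact (hunit i h).le
  have hPt : ∀ i j, P i j = r i * r j * t i j := by
    intro i j
    simp only [P, t]
    rw [Finset.mul_sum]
    apply Finset.sum_congr rfl; intro a _
    rw [← hry i a, ← hry j a]; ring
  have ht1 : ∀ i j, |t i j| ≤ 1 := by
    intro i j
    have h := Finset.sum_mul_sq_le_sq_mul_sq Finset.univ (y i) (y j)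
    have h2 : (t i j) ^ 2 ≤ 1 := by
      refine h.trans ?_
      have h3 : 0 ≤ ∑ a, y j a ^ 2 := Finset.sum_nonneg fun a _ => sq_nonneg _
      nlinarith [hyle i, hyle j, h3, Finset.sum_nonneg fun (a : Fin k) (_ : a ∈ Finset.univ) => sq_nonneg (y i a)]
    exact abs_le_one_iff_mul_self_le_one.mpr (by nlinarith)
  have hPP : ∀ i, ∑ j, P i j ^ 2 = r i ^ 2 := by
    intro i
    have h1 : ∀ j, P i j ^ 2 = ∑ a, ∑ b, (x a i * x b i) * (x a j * x b j) := by
      intro j
      rw [sq]; simp only [P]; rw [Finset.sum_mul_sum]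
      apply Finset.sum_congr rfl; intro a _
      apply Finset.sum_congr rfl; intro b _
      ring
    simp only [h1]
    rw [Finset.sum_comm]
    have h2 : ∀ a, ∑ j, ∑ b, (x a i * x b i) * (x a j * x b j) = x a i ^ 2 := by
      intro a
      rw [Finset.sum_comm]
      simp only [← Finset.mul_sum, hx]
      simp [sq]
    simp only [h2]
    exact (hr2 i).symm
  have hT2 : ∑ i, ∑ j, r i * r j * (t i j) ^ 2 ≤ n := by
    have h1 : ∀ i j, r i * r j * (t i j) ^ 2 ≤ (r i ^ 2 * t i j ^ 2 + r j ^ 2 * t i j ^ 2) / 2 := by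
      intro i j
      nlinarith [mul_nonneg (sq_nonneg (r i - r j)) (sq_nonneg (t i j))]
    have h2 : ∀ i, ∑ j, r j ^ 2 * t i j ^ 2 ≤ 1 := by
      intro i
      by_cases h : r i = 0
      · have : ∀ j, t i j = 0 := by
          intro j; simp only [t, y]; simp [h]
        simp [this]
      · have h3 := hPP i
        have h4 : ∑ j, P i j ^ 2 = r i ^ 2 * ∑ j, r j ^ 2 * t i j ^ 2 := by
          rw [Finset.mul_sum]
          apply Finset.sum_congr rfl; intro j _
          rw [hPt]; ring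
        rw [h4] at h3
        have h5 : r i ^ 2 * ∑ j, r j ^ 2 * t i j ^ 2 = r i ^ 2 * 1 := by linarith
        exact (mul_left_cancel₀ (pow_ne_zero 2 h) h5).le
    have h3 : ∑ i, ∑ j, r j ^ 2 * t i j ^ 2 ≤ n := by
      calc ∑ i, ∑ j, r j ^ 2 * t i j ^ 2 ≤ ∑ i : V, (1 : ℝ) := Finset.sum_le_sum fun i _ => h2 i
        _ = n := by simp [hn]
    have hts : ∀ i j, t i j = t j i := by
      intro i j; simp only [t]; apply Finset.sum_congr rfl; intro a _; ring
    have h4 : ∑ i, ∑ j, r i ^ 2 * t i j ^ 2 = ∑ i, ∑ j, r j ^ 2 * t i j ^ 2 := by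
      rw [Finset.sum_comm]
      apply Finset.sum_congr rfl; intro i _
      apply Finset.sum_congr rfl; intro j _
      rw [hts j i]
    calc ∑ i, ∑ j, r i * r j * (t i j) ^ 2
        ≤ ∑ i, ∑ j, (r i ^ 2 * t i j ^ 2 + r j ^ 2 * t i j ^ 2) / 2 :=
          Finset.sum_le_sum fun i _ => Finset.sum_le_sum fun j _ => h1 i j
      _ = (∑ i, ∑ j, r i ^ 2 * t i j ^ 2 + ∑ i, ∑ j, r j ^ 2 * t i j ^ 2) / 2 := by
          simp only [← Finset.sum_div, Finset.sum_add_distrib]
      _ ≤ n := by rw [h4]; linarith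
  set R : ℝ := ∑ i, r i with hR
  have hT4 := fourth r y (by omega) hunit
  rw [← hR] at hT4
  have hrsum : ∑ i, r i ^ 2 = k := by
    simp only [hr2]
    rw [Finset.sum_comm]
    have : ∀ a, ∑ i, x a i ^ 2 = 1 := by
      intro a; simpa [sq] using hx a a
    simp [this]
  have hR2 : R ^ 2 ≤ n * k := by
    have h1 := Finset.sum_mul_sq_le_sq_mul_sq Finset.univ (fun _ : V => (1 : ℝ)) r
    rw [hrsum] at h1
    simpa [hR, hn] using h1
  have hRpos : 0 < R := by
    rcases (Finset.sum_nonneg fun i (_ : i ∈ Finset.univ) => hr0 i).lt_or_eq with h | h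
    · exact h
    · exfalso
      have h1 := (Finset.sum_eq_zero_iff_of_nonneg (fun i _ => hr0 i)).mp h.symm
      have h2 : ∑ i, r i ^ 2 = 0 := by
        apply Finset.sum_eq_zero; intro i hi; rw [h1 i hi]; norm_num
      rw [hrsum] at h2
      linarith
  have hR20 : 0 ≤ R ^ 2 := sq_nonneg _
  have e2 : ∀ i j, |t i j| ^ 2 = t i j ^ 2 := fun i j => sq_abs _
  have e4 : ∀ i j, |t i j| ^ 4 = t i j ^ 4 := by
    intro i j
    calc |t i j| ^ 4 = (|t i j| ^ 2) ^ 2 := by ring
      _ = t i j ^ 4 := by rw [e2]; ring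
  -- combine
  have hpt : ∀ i j, |P i j| ≤ q * (1 + 2 * q) / (2 * (1 + q) ^ 2) * (r i * r j)
      + (3 * q ^ 2 + 2 * q + 1) / (2 * q * (1 + q) ^ 2) * (r i * r j * t i j ^ 2)
      - 1 / (2 * q * (1 + q) ^ 2) * (r i * r j * (t i j) ^ 4) := by
    intro i j
    have hrr : 0 ≤ r i * r j := mul_nonneg (hr0 i) (hr0 j)
    have h := mul_le_mul_of_nonneg_left (quartic q |t i j| hq (ht1 i j) (abs_nonneg _)) hrr
    rw [hPt, abs_mul, abs_of_nonneg hrr]
    refine h.trans (le_of_eq ?_)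
    rw [e2, e4]; ring
  have hRR : R ^ 2 = ∑ i, ∑ j, r i * r j := by rw [sq, hR, Finset.sum_mul_sum]
  have hsumeq : ∑ i, ∑ j, (q * (1 + 2 * q) / (2 * (1 + q) ^ 2) * (r i * r j)
      + (3 * q ^ 2 + 2 * q + 1) / (2 * q * (1 + q) ^ 2) * (r i * r j * t i j ^ 2)
      - 1 / (2 * q * (1 + q) ^ 2) * (r i * r j * (t i j) ^ 4)) =
      q * (1 + 2 * q) / (2 * (1 + q) ^ 2) * R ^ 2
      + (3 * q ^ 2 + 2 * q + 1) / (2 * q * (1 + q) ^ 2) * (∑ i, ∑ j, r i * r j * t i j ^ 2)
      - 1 / (2 * q * (1 + q) ^ 2) * (∑ i, ∑ j, r i * r j * (t i j) ^ 4) := by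
    rw [hRR]
    simp only [Finset.mul_sum, ← Finset.sum_add_distrib, ← Finset.sum_sub_distrib]
  have hq1 : q < 1 := by
    by_contra hcon
    push Not at hcon
    nlinarith [mul_pos hq hq]
  have hden : 0 < 2 * q * (1 + q) ^ 2 := by positivity
  have hB : 0 ≤ (3 * q ^ 2 + 2 * q + 1) / (2 * q * (1 + q) ^ 2) := by positivity
  have hG : 0 < 1 / (2 * q * (1 + q) ^ 2) := by positivity
  have s1 : (3 * q ^ 2 + 2 * q + 1) / (2 * q * (1 + q) ^ 2) * (∑ i, ∑ j, r i * r j * t i j ^ 2)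
      ≤ (3 * q ^ 2 + 2 * q + 1) / (2 * q * (1 + q) ^ 2) * n := mul_le_mul_of_nonneg_left hT2 hB
  have hkk : (k : ℝ) + 2 = 1 / q ^ 2 := by
    field_simp; linarith
  have hkk' : (k : ℝ) = 1 / q ^ 2 - 2 := by linarith
  have hcoef : 0 ≤ q * (1 + 2 * q) / (2 * (1 + q) ^ 2)
      - 1 / (2 * q * (1 + q) ^ 2) * (3 / ((k : ℝ) * (k + 2))) := by
    have e : q * (1 + 2 * q) / (2 * (1 + q) ^ 2)
      - 1 / (2 * q * (1 + q) ^ 2) * (3 / ((k : ℝ) * (k + 2)))
      = (q ^ 2 * (k + 2) * (1 + 2 * q) * k - 3) / (2 * q * (1 + q) ^ 2 * (k * (k + 2))) := by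
      field_simp
    rw [e, hq2]
    apply div_nonneg _ (by positivity)
    by_cases h3 : (3 : ℝ) ≤ k
    · nlinarith [mul_pos hq hkpos]
    · have hk3 : k = 2 := by
        have : k < 3 := by
          by_contra hcon
          push Not at hcon
          exact h3 (by exact_mod_cast hcon)
        omega
      have hq12 : q = 1 / 2 := by
        rw [hk3] at hq2
        push_cast at hq2
        nlinarith [mul_pos hq hq]
      rw [hk3, hq12]
      norm_num
  have hfinal : (q * (1 + 2 * q) / (2 * (1 + q) ^ 2)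
      - 1 / (2 * q * (1 + q) ^ 2) * (3 / ((k : ℝ) * (k + 2)))) * (n * k)
      + (3 * q ^ 2 + 2 * q + 1) / (2 * q * (1 + q) ^ 2) * n
      = (1 + 2 * q) * (1 - q) / (q * (1 + q)) * n := by
    have hkne : (k : ℝ) ≠ 0 := hkpos.ne'
    have hk2ne : (k : ℝ) + 2 ≠ 0 := by positivity
    have e3 : (1 / (2 * q * (1 + q) ^ 2) * (3 / ((k : ℝ) * (k + 2)))) * (n * k)
        = 3 * q ^ 2 / (2 * q * (1 + q) ^ 2) * n := by
      rw [hkk]; field_simp
    rw [sub_mul, e3]
    have e4 : q * (1 + 2 * q) / (2 * (1 + q) ^ 2) * (n * k)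
        = (1 + 2 * q) * (1 - 2 * q ^ 2) / (2 * q * (1 + q) ^ 2) * n := by
      rw [hkk']; field_simp
    rw [e4]
    have h1q : (1 + q) ≠ 0 := by positivity
    field_simp
    ring
  have s3 := mul_le_mul_of_nonneg_left hR2 hcoef
  have heq' : (1 + 2 * q) * (1 - q) / (q * (1 + q)) * n ≤ ∑ i, ∑ j, |P i j| := heq
  have hle : ∑ i, ∑ j, |P i j| ≤ ∑ i, ∑ j, (q * (1 + 2 * q) / (2 * (1 + q) ^ 2) * (r i * r j)
      + (3 * q ^ 2 + 2 * q + 1) / (2 * q * (1 + q) ^ 2) * (r i * r j * t i j ^ 2)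
      - 1 / (2 * q * (1 + q) ^ 2) * (r i * r j * (t i j) ^ 4)) :=
    Finset.sum_le_sum fun i _ => Finset.sum_le_sum fun j _ => hpt i j
  have s2 := mul_le_mul_of_nonneg_left hT4 hG.le
  -- both slacks vanish
  have hslack : ∑ i, ∑ j, r i * r j * (∑ a, y i a * y j a) ^ 4 ≤ 3 / ((k : ℝ) * (k + 2)) * R ^ 2 := by
    have h1 : 1 / (2 * q * (1 + q) ^ 2) * (∑ i, ∑ j, r i * r j * (∑ a, y i a * y j a) ^ 4)
        ≤ 1 / (2 * q * (1 + q) ^ 2) * (3 / ((k : ℝ) * (k + 2)) * R ^ 2) := by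
      have h2 := heq'.trans hle
      rw [hsumeq] at h2
      have h3 : ∑ i, ∑ j, r i * r j * (t i j) ^ 4 = ∑ i, ∑ j, r i * r j * (∑ a, y i a * y j a) ^ 4 := rfl
      rw [h3] at h2
      nlinarith
    exact le_of_mul_le_mul_left h1 hG
  have hptw : ∀ i j, |P i j| = q * (1 + 2 * q) / (2 * (1 + q) ^ 2) * (r i * r j)
      + (3 * q ^ 2 + 2 * q + 1) / (2 * q * (1 + q) ^ 2) * (r i * r j * t i j ^ 2)
      - 1 / (2 * q * (1 + q) ^ 2) * (r i * r j * (t i j) ^ 4) := by
    apply ptwise _ _ hpt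
    rw [hsumeq]
    linarith
  have hts : ∀ i j, r i ≠ 0 → r j ≠ 0 → |∑ a, y i a * y j a| = 1 ∨ |∑ a, y i a * y j a| = q := by
    intro i j hi hj
    have hrr : 0 < r i * r j := mul_pos (lt_of_le_of_ne (hr0 i) (Ne.symm hi)) (lt_of_le_of_ne (hr0 j) (Ne.symm hj))
    have h1 := hptw i j
    rw [hPt, abs_mul, abs_of_pos hrr, ← e2, ← e4] at h1
    set s := |t i j| with hs
    have hs0 : 0 ≤ s := abs_nonneg _
    have h2 : r i * r j * (((1 - s) * (s + 1 + 2 * q) * (s - q) ^ 2) / (2 * q * (1 + q) ^ 2)) = 0 := by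
      have e : q * (1 + 2 * q) / (2 * (1 + q) ^ 2) + (3 * q ^ 2 + 2 * q + 1) / (2 * q * (1 + q) ^ 2) * s ^ 2
        - 1 / (2 * q * (1 + q) ^ 2) * s ^ 4 - s
        = ((1 - s) * (s + 1 + 2 * q) * (s - q) ^ 2) / (2 * q * (1 + q) ^ 2) := by
        field_simp
        ring
      rw [← e]
      linear_combination (-1 : ℝ) * h1
    have h3 : (1 - s) * (s + 1 + 2 * q) * (s - q) ^ 2 = 0 := by
      rcases mul_eq_zero.mp h2 with h | h
      · exact absurd h hrr.ne'
      · rcases div_eq_zero_iff.mp h with h | h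
        · exact h
        · exact absurd h hden.ne'
    rcases mul_eq_zero.mp h3 with h | h
    · rcases mul_eq_zero.mp h with h | h
      · left; change s = 1; linarith
      · exfalso; linarith
    · right
      have := pow_eq_zero_iff (two_ne_zero) |>.mp h
      change s = q; linarith
  exact lines_of_eq r y hk hr0 hunit q hq hq2 hRpos hts hslack

end Pool.Agent.Helper32K9.Hong
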