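import Pool.Agent.Helper32K9.Hong.Keys

set_option autoImplicit false

namespace Pool.Agent.Helper32K9.Hong

open Finset Pool.Agent.Helper91.Gen Pool.Agent.Helper91.Eig
open Pool.Agent.Results.MP_b9b22b_co.SharpUpper (lam bigM herm lam_eq blow blow_low sum_blow)

section high
variable {V : Type} [Fintype V] [DecidableEq V]

/-- min-max upper bound for the eigenvalues at the bottom -/
theorem high_bound {A : Matrix V V ℝ} (hA : A.IsHermitian) (k n : ℕ) (hn : n + (k + 1) = Fintype.card V)
    (hk : n < Fintype.card V) (μ : ℝ) (w : Fin (k + 1) → V → ℝ)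
    (hw : ∀ c : Fin (k + 1) → ℝ, (∀ u, ∑ a, c a * w a u = 0) → c = 0)
    (hq : ∀ c : Fin (k + 1) → ℝ, qf A (fun u => ∑ a, c a * w a u) ≤ μ * ∑ u, (∑ a, c a * w a u) ^ 2) :
    hA.eigenvalues₀ ⟨n, hk⟩ ≤ μ := by
  by_contra hcon
  push Not at hcon
  let idx : Fin k → Fin (Fintype.card V) := fun j => ⟨n + 1 + j, by have := j.2; omega⟩
  let Φ : (Fin (k + 1) → ℝ) →ₗ[ℝ] (Fin k → ℝ) :=
    { toFun := fun c j => ∑ u, ev hA (idx j) u * ∑ a, c a * w a u
      map_add' := by
        intro c d; ext j
        simp only [Pi.add_apply, add_mul, Finset.sum_add_distrib, mul_add]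
      map_smul' := by
        intro r c; ext j
        simp only [Pi.smul_apply, smul_eq_mul, RingHom.id_apply, Finset.mul_sum]
        apply Finset.sum_congr rfl; intro u _
        apply Finset.sum_congr rfl; intro a _
        ring }
  have hker : LinearMap.ker Φ ≠ ⊥ := by
    apply LinearMap.ker_ne_bot_of_finrank_lt
    simp
  obtain ⟨c, hc, hc0⟩ := (Submodule.ne_bot_iff _).mp hker
  have hΦ : Φ c = 0 := LinearMap.mem_ker.mp hc
  set x : V → ℝ := fun u => ∑ a, c a * w a u with hx
  have hxne : 0 < ∑ u, x u ^ 2 := by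
    rcases (Finset.sum_nonneg fun u (_ : u ∈ Finset.univ) => sq_nonneg (x u)).lt_or_eq with h | h
    · exact h
    · exfalso
      apply hc0
      apply hw c
      intro u
      have := (Finset.sum_eq_zero_iff_of_nonneg (fun u _ => sq_nonneg (x u))).mp h.symm u (Finset.mem_univ u)
      exact pow_eq_zero_iff (two_ne_zero) |>.mp this
  let g : Fin (Fintype.card V) → ℝ := fun j => ∑ v, ev hA j v * x v
  have hg0 : ∀ j : Fin (Fintype.card V), n < j.val → g j = 0 := by
    intro j hj
    have hj2 := j.2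
    have := congrFun hΦ ⟨j.val - (n + 1), by omega⟩
    have hidx : idx ⟨j.val - (n + 1), by omega⟩ = j := by
      ext; simp only [idx]; omega
    have h2 : ∑ u, ev hA (idx ⟨j.val - (n + 1), by omega⟩) u * x u = 0 := this
    rw [hidx] at h2
    exact h2
  have hxc : x = comb hA le_rfl g := by
    funext u
    rw [ev_expand hA x u]
    simp only [comb, g, Fin.castLE_rfl, id]
  have hQ : hA.eigenvalues₀ ⟨n, hk⟩ * ∑ u, x u ^ 2 ≤ qf A x := by
    have e1 : ∑ u, x u ^ 2 = ∑ j, g j * g j := by
      rw [← comb_inner hA le_rfl g g, ← hxc]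
      simp only [sq]
    rw [e1]
    conv_rhs => rw [hxc, comb_qf]
    rw [Finset.mul_sum]
    apply Finset.sum_le_sum; intro j _
    by_cases hj : n < j.val
    · rw [hg0 j hj]; simp
    · have : hA.eigenvalues₀ ⟨n, hk⟩ ≤ hA.eigenvalues₀ j := by
        apply hA.eigenvalues₀_antitone
        rw [Fin.le_def]; simp only; omega
      simp only [Fin.castLE_rfl, id]
      nlinarith [sq_nonneg (g j), mul_le_mul_of_nonneg_left this (sq_nonneg (g j))]
  have h2 := hq c
  have h3 : hA.eigenvalues₀ ⟨n, hk⟩ * ∑ u, x u ^ 2 ≤ μ * ∑ u, x u ^ 2 := hQ.trans h2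
  have := (mul_lt_mul_of_pos_right hcon hxne)
  linarith

end high

/-- the independent blow-up of an irreflexive symmetric relation -/
def iblow (N t : ℕ) (R : Fin N → Fin N → Bool) (hR : ∀ u v, R u v = R v u)
    (hirr : ∀ u, R u u = false) : SimpleGraph (Fin (N * t)) where
  Adj i j := R i.divNat j.divNat = true
  symm := ⟨fun i j h => by rw [hR]; exact h⟩
  loopless := ⟨fun i h => by rw [hirr] at h; exact Bool.noConfusion h⟩

open Classical in
/-- upper bound for a low eigenvalue of an independent blow-up -/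
theorem iblow_high (N t k n : ℕ) (ht : 1 ≤ t) (R : Fin N → Fin N → Bool) (hR : ∀ u v, R u v = R v u)
    (hirr : ∀ u, R u u = false) (hn : n + (k + 1) = N * t) (c : ℝ)
    (w : Fin (k + 1) → Fin N → ℝ)
    (hw : ∀ γ : Fin (k + 1) → ℝ, (∀ u, ∑ a, γ a * w a u = 0) → γ = 0)
    (hq : ∀ γ : Fin (k + 1) → ℝ,
      ∑ u, (∑ a, γ a * w a u) * ∑ v, (if R u v then (∑ a, γ a * w a v) else 0) ≤
      c * ∑ u, (∑ a, γ a * w a u) ^ 2) :
    lam (iblow N t R hR hirr) (n + 1) ≤ c * t := by
  have hk' : n < Fintype.card (Fin (N * t)) := by simp; omega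
  rw [lam_eq _ n hk']
  have htpos : (0 : ℝ) < t := by exact_mod_cast ht
  apply high_bound (herm (iblow N t R hR hirr)) k n (by simpa using hn) hk' (c * t) (fun a i => w a i.divNat)
  · intro γ hγ
    apply hw γ
    intro u
    have := hγ (finProdFinEquiv (u, (⟨0, ht⟩ : Fin t)))
    have h2 : (finProdFinEquiv (u, (⟨0, ht⟩ : Fin t))).divNat = u :=
      congrArg Prod.fst (finProdFinEquiv.symm_apply_apply (u, (⟨0, ht⟩ : Fin t)))
    rw [h2] at this
    exact this
  · intro γ
    set g : Fin N → ℝ := fun u => ∑ a, γ a * w a u with hg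
    have e1 : ∑ i : Fin (N * t), (∑ a, γ a * w a i.divNat) ^ 2 = t * ∑ u, g u ^ 2 :=
      sum_blow N t (fun u => g u ^ 2)
    have e2 : qf ((iblow N t R hR hirr).adjMatrix ℝ) (fun i => ∑ a, γ a * w a i.divNat)
        = t * (t * ∑ u, g u * ∑ v, (if R u v then g v else 0)) := by
      rw [qf_eq]
      have h1 : ∀ i : Fin (N * t), ∑ j, ((iblow N t R hR hirr).adjMatrix ℝ) i j * g j.divNat
          = t * (∑ v, (if R i.divNat v then g v else 0)) := by
        intro i
        have h2 : ∀ j : Fin (N * t), ((iblow N t R hR hirr).adjMatrix ℝ) i j * g j.divNat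
            = (if R i.divNat j.divNat then g j.divNat else 0) := by
          intro j
          rw [SimpleGraph.adjMatrix_apply]
          by_cases hr : R i.divNat j.divNat = true
          · have : (iblow N t R hR hirr).Adj i j := hr
            simp [this, hr]
          · have : ¬ (iblow N t R hR hirr).Adj i j := hr
            simp [this, hr]
        simp only [h2]
        rw [sum_blow N t (fun v => if R i.divNat v then g v else 0)]
      have h3 : ∀ i : Fin (N * t), (∑ a, γ a * w a i.divNat) * ∑ j, ((iblow N t R hR hirr).adjMatrix ℝ) i j *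
          (∑ a, γ a * w a j.divNat) = t * (g i.divNat * (∑ v, (if R i.divNat v then g v else 0))) := by
        intro i
        have := h1 i
        simp only [hg] at this ⊢
        rw [this]; ring
      simp only [h3, ← Finset.mul_sum]
      rw [sum_blow N t (fun u => g u * ∑ v, (if R u v then g v else 0))]
    rw [e1, e2]
    have h4 := mul_le_mul_of_nonneg_left (hq γ) (mul_pos htpos htpos).le
    nlinarith [h4]

/-- equality in Welch's bound: a maximal equiangular system is a tight frame -/
theorem tight (k N : ℕ) (hk : 2 ≤ k) (hN : 2 * N = k * (k + 1)) (v : Fin N → Fin k → ℝ) (q : ℝ)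
    (hq2 : q ^ 2 * (k + 2) = 1) (h1 : ∀ i, ∑ a, v i a ^ 2 = 1)
    (h2 : ∀ i j, i ≠ j → |∑ a, v i a * v j a| = q) (a b : Fin k) :
    ∑ i, v i a * v i b = if a = b then ((k : ℝ) + 1) / 2 else 0 := by
  have hNk : (N : ℝ) = (k : ℝ) * (k + 1) / 2 := by
    have h4 : (2 : ℝ) * N = (k : ℝ) * (k + 1) := by exact_mod_cast hN
    linarith
  have hk0 : (0 : ℝ) < k := by exact_mod_cast (by omega : 0 < k)
  let M : Fin k → Fin k → ℝ := fun a b => ∑ i, v i a * v i b
  let c : ℝ := ((k : ℝ) + 1) / 2
  have hs : ∑ a, ∑ b, (M a b - (if a = b then c else 0)) ^ 2 = 0 := by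
    have e1 : ∀ a b, (M a b - (if a = b then c else 0)) ^ 2
        = M a b ^ 2 - 2 * c * (if a = b then M a b else 0) + c ^ 2 * (if a = b then 1 else 0) := by
      intro a b
      by_cases h : a = b
      · simp only [h, if_true]; ring
      · simp only [h, if_false]; ring
    simp only [e1, Finset.sum_add_distrib, Finset.sum_sub_distrib, ← Finset.mul_sum]
    have e2 : ∑ a, ∑ b, M a b ^ 2 = ∑ i, ∑ j, (∑ a, v i a * v j a) ^ 2 := by
      have f1 : ∀ a b, M a b ^ 2 = ∑ i, ∑ j, (v i a * v j a) * (v i b * v j b) := by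
        intro a b
        rw [sq]; simp only [M]; rw [Finset.sum_mul_sum]
        apply Finset.sum_congr rfl; intro i _
        apply Finset.sum_congr rfl; intro j _
        ring
      have f2 : ∀ i j, (∑ a, v i a * v j a) ^ 2 = ∑ a, ∑ b, (v i a * v j a) * (v i b * v j b) := by
        intro i j
        rw [sq, Finset.sum_mul_sum]
      simp only [f1, f2]
      calc ∑ a, ∑ b, ∑ i, ∑ j, (v i a * v j a) * (v i b * v j b)
          = ∑ a, ∑ i, ∑ b, ∑ j, (v i a * v j a) * (v i b * v j b) :=
            Finset.sum_congr rfl fun a _ => Finset.sum_comm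
        _ = ∑ i, ∑ a, ∑ b, ∑ j, (v i a * v j a) * (v i b * v j b) := Finset.sum_comm
        _ = ∑ i, ∑ a, ∑ j, ∑ b, (v i a * v j a) * (v i b * v j b) :=
            Finset.sum_congr rfl fun i _ => Finset.sum_congr rfl fun a _ => Finset.sum_comm
        _ = ∑ i, ∑ j, ∑ a, ∑ b, (v i a * v j a) * (v i b * v j b) :=
            Finset.sum_congr rfl fun i _ => Finset.sum_comm
    have e3 : ∀ i j : Fin N, (∑ a, v i a * v j a) ^ 2 = q ^ 2 + (if i = j then 1 - q ^ 2 else 0) := by
      intro i j
      by_cases h : i = j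
      · subst h
        have : ∑ a, v i a * v i a = 1 := by simpa [sq] using h1 i
        rw [this, if_pos rfl]; ring
      · rw [if_neg h, ← sq_abs, h2 i j h]; ring
    have e4 : ∑ i : Fin N, ∑ j : Fin N, (∑ a, v i a * v j a) ^ 2 = N ^ 2 * q ^ 2 + N * (1 - q ^ 2) := by
      simp only [e3, Finset.sum_add_distrib]
      simp
      ring
    have e5 : ∑ a, ∑ b, (if a = b then M a b else 0) = N := by
      simp only [Finset.sum_ite_eq, Finset.mem_univ, if_true, M]
      rw [Finset.sum_comm]
      have : ∀ i, ∑ a, v i a * v i a = 1 := by intro i; simpa [sq] using h1 i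
      simp [this]
    have e6 : ∑ a : Fin k, ∑ b : Fin k, (if a = b then (1 : ℝ) else 0) = k := by simp
    rw [e2, e4, e5, e6, hNk]
    have hqk : q ^ 2 = 1 / ((k : ℝ) + 2) := by
      rw [eq_div_iff (by positivity)]; exact hq2
    rw [hqk]
    simp only [c]
    field_simp
    ring
  have h3 := (Finset.sum_eq_zero_iff_of_nonneg
    (fun a _ => Finset.sum_nonneg fun b _ => sq_nonneg _)).mp hs a (Finset.mem_univ a)
  have h4 := (Finset.sum_eq_zero_iff_of_nonneg (fun b _ => sq_nonneg _)).mp h3 b (Finset.mem_univ b)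
  have h5 := pow_eq_zero_iff (two_ne_zero) |>.mp h4
  have h6 : M a b = if a = b then c else 0 := by linarith
  exact h6

end Pool.Agent.Helper32K9.Hong
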