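import Pool.Agent.Helper32K9.Hong.Build

set_option autoImplicit false

namespace Pool.Agent.Helper32K9.Hong

open Finset Pool.Agent.Helper91.Gen Pool.Agent.Helper91.Eig
open Pool.Agent.Results.MP_b9b22b_co.SharpUpper (lam bigM herm lam_eq blow blow_low sum_blow)

/-- sign of a Boolean -/
def sg (b : Bool) : ℝ := if b then 1 else -1

theorem sg_pm (b : Bool) : sg b = 1 ∨ sg b = -1 := by cases b <;> simp [sg]

theorem sg_sq (b : Bool) : sg b * sg b = 1 := by cases b <;> simp [sg]

section sys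

variable {k N : ℕ} (hk : 2 ≤ k) (hN : 2 * N = k * (k + 1)) (v : Fin N → Fin k → ℝ) (q : ℝ)
    (hq : 0 < q) (hq2 : q ^ 2 * (k + 2) = 1) (h1 : ∀ i, ∑ a, v i a ^ 2 = 1)
    (h2 : ∀ i j, i ≠ j → |∑ a, v i a * v j a| = q)

include hk hN hq hq2 h1 h2 in
theorem half_sum (i : Fin N) (s : ℝ) (hs : s = 1 ∨ s = -1) (a : Fin k) :
    ∑ j, ∑ d : Bool, (if 0 < s * sg d * ∑ b, v i b * v j b then sg d * v j a else 0)
      = (1 + ((k : ℝ) - 1) / 2 / q) * (s * v i a) := by
  have e1 : ∀ j, ∑ d : Bool, (if 0 < s * sg d * ∑ b, v i b * v j b then sg d * v j a else 0)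
      = (s / q) * ((∑ b, v i b * v j b) * v j a) + (if i = j then (1 - 1 / q) * (s * v j a) else 0) := by
    intro j
    rw [Fintype.sum_bool]
    have hv : |∑ b, v i b * v j b| = if i = j then 1 else q := by
      by_cases h : i = j
      · subst h
        have : ∑ b, v i b * v i b = 1 := by simpa [sq] using h1 i
        rw [this, if_pos rfl]; norm_num
      · rw [if_neg h, h2 i j h]
    have hself : i = j → ∑ b, v i b * v j b = 1 := by
      rintro rfl
      simpa [sq] using h1 i
    set x := ∑ b, v i b * v j b with hx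
    have hqne : q ≠ 0 := hq.ne'
    simp only [sg]
    simp only [if_true]
    by_cases hij : i = j
    · have hx1 := hself hij
      rw [hx1, if_pos hij]
      rcases hs with rfl | rfl
      · norm_num
        ring
      · norm_num
        ring
    · rw [if_neg hij] at hv ⊢
      have hx2 : x = q ∨ x = -q := by
        rcases (_root_.abs_eq hq.le).mp hv with h | h
        · exact Or.inl h
        · exact Or.inr h
      rcases hs with rfl | rfl <;> rcases hx2 with h | h <;> rw [h] <;> simp [hq, hq.le, not_lt.mpr] <;>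
        field_simp
  simp only [e1, Finset.sum_add_distrib, ← Finset.mul_sum]
  have e2 : ∑ j, (∑ b, v i b * v j b) * v j a = ((k : ℝ) + 1) / 2 * v i a := by
    have e3 : ∀ j, (∑ b, v i b * v j b) * v j a = ∑ b, v i b * (v j b * v j a) := by
      intro j
      rw [Finset.sum_mul]
      apply Finset.sum_congr rfl; intro b _; ring
    simp only [e3]
    rw [Finset.sum_comm]
    simp only [← Finset.mul_sum, tight k N hk hN v q hq2 h1 h2]
    simp
    ring
  rw [e2]
  simp only [Finset.sum_ite_eq, Finset.mem_univ, if_true]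
  field_simp
  ring

include hq h1 h2 in
theorem half_one (i : Fin N) (s : ℝ) (hs : s = 1 ∨ s = -1) :
    ∑ j, ∑ d : Bool, (if 0 < s * sg d * ∑ b, v i b * v j b then (1 : ℝ) else 0) = N := by
  have e1 : ∀ j, ∑ d : Bool, (if 0 < s * sg d * ∑ b, v i b * v j b then (1 : ℝ) else 0) = 1 := by
    intro j
    rw [Fintype.sum_bool]
    have hv : (∑ b, v i b * v j b) ≠ 0 := by
      by_cases h : i = j
      · subst h
        have : ∑ b, v i b * v i b = 1 := by simpa [sq] using h1 i
        rw [this]; norm_num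
      · intro h0
        have := h2 i j h
        rw [h0] at this
        simp at this
        linarith
    set x := ∑ b, v i b * v j b with hx
    simp only [sg, if_true]
    rcases lt_or_gt_of_ne hv with h | h
    · rcases hs with rfl | rfl
      · have : ¬ (0 < x) := by linarith
        simp [this, h]
      · have : ¬ (0 < x) := by linarith
        simp [this, h]
    · rcases hs with rfl | rfl
      · have : ¬ (x < 0) := by linarith
        simp [this, h]
      · have : ¬ (x < 0) := by linarith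
        simp [this, h]
  rw [Finset.sum_congr rfl fun j _ => e1 j]
  simp

/-- the symmetric system of vectors attached to a system of lines -/
def uu (e : Fin (k * (k + 1)) ≃ Fin N × Bool) (b : Fin (k * (k + 1))) (a : Fin k) : ℝ :=
  sg (e b).2 * v (e b).1 a

theorem uu_ip (e : Fin (k * (k + 1)) ≃ Fin N × Bool) (b b' : Fin (k * (k + 1))) :
    ∑ a, uu v e b a * uu v e b' a = sg (e b).2 * sg (e b').2 * ∑ a, v (e b).1 a * v (e b').1 a := by
  simp only [uu]
  rw [Finset.mul_sum]
  apply Finset.sum_congr rfl; intro a _; ring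

open Classical in
/-- positive relation -/
noncomputable def Rp (e : Fin (k * (k + 1)) ≃ Fin N × Bool) (b b' : Fin (k * (k + 1))) : Bool :=
  decide (0 < ∑ a, uu v e b a * uu v e b' a)

open Classical in
/-- negative relation -/
noncomputable def Rm (e : Fin (k * (k + 1)) ≃ Fin N × Bool) (b b' : Fin (k * (k + 1))) : Bool :=
  decide (0 < -∑ a, uu v e b a * uu v e b' a)

theorem Rp_symm (e : Fin (k * (k + 1)) ≃ Fin N × Bool) (b b' : Fin (k * (k + 1))) :
    Rp v e b b' = Rp v e b' b := by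
  have : ∑ a, uu v e b a * uu v e b' a = ∑ a, uu v e b' a * uu v e b a :=
    Finset.sum_congr rfl fun a _ => mul_comm _ _
  simp only [Rp, this]

theorem Rm_symm (e : Fin (k * (k + 1)) ≃ Fin N × Bool) (b b' : Fin (k * (k + 1))) :
    Rm v e b b' = Rm v e b' b := by
  have : ∑ a, uu v e b a * uu v e b' a = ∑ a, uu v e b' a * uu v e b a :=
    Finset.sum_congr rfl fun a _ => mul_comm _ _
  simp only [Rm, this]

include h1 in
theorem uu_self (e : Fin (k * (k + 1)) ≃ Fin N × Bool) (b : Fin (k * (k + 1))) :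
    ∑ a, uu v e b a * uu v e b a = 1 := by
  rw [uu_ip, sg_sq, one_mul]
  simpa [sq] using h1 (e b).1

include h1 in
theorem Rp_refl (e : Fin (k * (k + 1)) ≃ Fin N × Bool) (b : Fin (k * (k + 1))) :
    Rp v e b b = true := by
  simp only [Rp, uu_self v h1]
  simp

include h1 in
theorem Rm_irr (e : Fin (k * (k + 1)) ≃ Fin N × Bool) (b : Fin (k * (k + 1))) :
    Rm v e b b = false := by
  simp only [Rm, uu_self v h1]
  norm_num

include hk hN hq hq2 h1 h2 in
theorem Rp_sum (e : Fin (k * (k + 1)) ≃ Fin N × Bool) (b : Fin (k * (k + 1))) (a : Fin k) :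
    ∑ b', (if Rp v e b b' then uu v e b' a else 0) = (1 + ((k : ℝ) - 1) / 2 / q) * uu v e b a := by
  have h := half_sum hk hN v q hq hq2 h1 h2 (e b).1 (sg (e b).2) (sg_pm _) a
  rw [show uu v e b a = sg (e b).2 * v (e b).1 a from rfl, ← h, ← Fintype.sum_prod_type'
    (f := fun j d => if 0 < sg (e b).2 * sg d * ∑ b_1, v (e b).1 b_1 * v j b_1 then sg d * v j a else 0)]
  rw [← e.sum_comp]
  apply Finset.sum_congr rfl; intro b' _
  simp only [Rp, uu_ip]
  simp only [decide_eq_true_eq, uu]

include hk hN hq hq2 h1 h2 in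
theorem Rm_sum (e : Fin (k * (k + 1)) ≃ Fin N × Bool) (b : Fin (k * (k + 1))) (a : Fin k) :
    ∑ b', (if Rm v e b b' then uu v e b' a else 0) = -(1 + ((k : ℝ) - 1) / 2 / q) * uu v e b a := by
  have h := half_sum hk hN v q hq hq2 h1 h2 (e b).1 (-sg (e b).2) (by
    rcases sg_pm (e b).2 with h | h <;> rw [h] <;> norm_num) a
  have e1 : -(1 + ((k : ℝ) - 1) / 2 / q) * uu v e b a
      = (1 + ((k : ℝ) - 1) / 2 / q) * (-sg (e b).2 * v (e b).1 a) := by
    simp only [uu]; ring
  rw [e1, ← h, ← Fintype.sum_prod_type'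
    (f := fun j d => if 0 < -sg (e b).2 * sg d * ∑ b_1, v (e b).1 b_1 * v j b_1 then sg d * v j a else 0)]
  rw [← e.sum_comp]
  apply Finset.sum_congr rfl; intro b' _
  simp only [Rm, uu_ip]
  simp only [decide_eq_true_eq, uu, neg_mul]

include hq h1 h2 in
theorem Rp_one (e : Fin (k * (k + 1)) ≃ Fin N × Bool) (b : Fin (k * (k + 1))) :
    ∑ b', (if Rp v e b b' then (1 : ℝ) else 0) = N := by
  have h := half_one v q hq h1 h2 (e b).1 (sg (e b).2) (sg_pm _)
  rw [← h, ← Fintype.sum_prod_type'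
    (f := fun j d => if 0 < sg (e b).2 * sg d * ∑ b_1, v (e b).1 b_1 * v j b_1 then (1 : ℝ) else 0)]
  rw [← e.sum_comp]
  apply Finset.sum_congr rfl; intro b' _
  simp only [Rp, uu_ip]
  simp only [decide_eq_true_eq]

theorem uu_sum (e : Fin (k * (k + 1)) ≃ Fin N × Bool) (a : Fin k) : ∑ b, uu v e b a = 0 := by
  simp only [uu]
  rw [e.sum_comp (fun p => sg p.2 * v p.1 a), Fintype.sum_prod_type]
  simp [sg]

include hk hN hq2 h1 h2 in
theorem uu_tight (e : Fin (k * (k + 1)) ≃ Fin N × Bool) (a a' : Fin k) :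
    ∑ b, uu v e b a * uu v e b a' = if a = a' then (k : ℝ) + 1 else 0 := by
  simp only [uu]
  rw [e.sum_comp (fun p => sg p.2 * v p.1 a * (sg p.2 * v p.1 a')), Fintype.sum_prod_type]
  have : ∀ x : Fin N, ∑ y : Bool, sg y * v x a * (sg y * v x a') = 2 * (v x a * v x a') := by
    intro x
    rw [Fintype.sum_bool]; simp only [sg]; norm_num; ring
  simp only [this, ← Finset.mul_sum, tight k N hk hN v q hq2 h1 h2]
  by_cases h : a = a'
  · simp only [h, if_true]; ring
  · simp only [h, if_false]; ring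

include hk hN hq2 h1 h2 in
theorem uu_inj (e : Fin (k * (k + 1)) ≃ Fin N × Bool) (γ : Fin k → ℝ)
    (h : ∀ b, ∑ a, γ a * uu v e b a = 0) : γ = 0 := by
  funext a
  have h3 : ∑ b, (∑ a, γ a * uu v e b a) * uu v e b a = 0 := by simp [h]
  have h4 : ∑ b, (∑ a, γ a * uu v e b a) * uu v e b a = ((k : ℝ) + 1) * γ a := by
    have : ∀ b, (∑ a', γ a' * uu v e b a') * uu v e b a = ∑ a', γ a' * (uu v e b a' * uu v e b a) := by
      intro b
      rw [Finset.sum_mul]
      apply Finset.sum_congr rfl; intro a' _; ring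
    simp only [this]
    rw [Finset.sum_comm]
    simp only [← Finset.mul_sum, uu_tight hk hN v q hq2 h1 h2]
    simp
    ring
  rw [h4] at h3
  have hk0 : ((k : ℝ) + 1) ≠ 0 := by positivity
  simpa using (mul_eq_zero.mp h3).resolve_left hk0

include hk hq2 in
theorem mu_eq : (1 + ((k : ℝ) - 1) / 2 / q) = cc k * (k * (k + 1) : ℕ) ∧
    (1 + ((k : ℝ) - 1) / 2 / q) ≤ (k : ℝ) * (k + 1) / 2 ∨ q ≤ 0 := by
  by_cases hq : q ≤ 0
  · exact Or.inr hq
  left
  push Not at hq
  have hk2 : (2 : ℝ) ≤ k := by exact_mod_cast hk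
  have hs : Real.sqrt ((k : ℝ) + 2) = 1 / q := by
    rw [Real.sqrt_eq_iff_mul_self_eq (by positivity) (by positivity)]
    field_simp
    linarith
  refine ⟨?_, ?_⟩
  · unfold cc
    rw [hs]
    push_cast
    field_simp
  · have hsk : 1 / q ≤ k := by
      rw [← hs]
      rw [Real.sqrt_le_left (by linarith)]
      nlinarith
    have : ((k : ℝ) - 1) / 2 / q = ((k : ℝ) - 1) / 2 * (1 / q) := by ring
    rw [this]
    nlinarith

include hk hN hq hq2 h1 h2 in
theorem ex_low (e : Fin (k * (k + 1)) ≃ Fin N × Bool) (t : ℕ) (ht : 1 ≤ t) :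
    lam (iblow (k * (k + 1)) t (Rm v e) (Rm_symm v e) (Rm_irr v h1 e)) (k * (k + 1) * t - k + 1)
      ≤ -(cc k * (k * (k + 1) * t : ℕ)) := by
  obtain ⟨k', rfl⟩ : ∃ k', k = k' + 1 := ⟨k - 1, by omega⟩
  have hμ := (mu_eq hk q hq2).resolve_right (not_le.mpr hq)
  have hn : ((k' + 1) * (k' + 1 + 1) * t - (k' + 1)) + (k' + 1) = (k' + 1) * (k' + 1 + 1) * t := by
    apply Nat.sub_add_cancel
    nlinarith
  have h := iblow_high ((k' + 1) * (k' + 1 + 1)) t k' ((k' + 1) * (k' + 1 + 1) * t - (k' + 1)) ht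
    (Rm v e) (Rm_symm v e) (Rm_irr v h1 e) hn (-(1 + (((k' + 1 : ℕ) : ℝ) - 1) / 2 / q))
    (fun a b => uu v e b a) (fun γ hγ => uu_inj hk hN v q hq2 h1 h2 e γ hγ) ?_
  · refine h.trans (le_of_eq ?_)
    rw [hμ.1]
    push_cast
    ring
  · intro γ
    apply le_of_eq
    rw [Finset.mul_sum]
    apply Finset.sum_congr rfl; intro b _
    have e1 : ∀ b', (if Rm v e b b' = true then ∑ a, γ a * uu v e b' a else 0)
        = ∑ a, γ a * (if Rm v e b b' then uu v e b' a else 0) := by
      intro b'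
      by_cases hr : Rm v e b b' = true <;> simp [hr]
    simp only [e1]
    rw [Finset.sum_comm]
    simp only [← Finset.mul_sum, Rm_sum hk hN v q hq hq2 h1 h2]
    have e2 : ∑ a, γ a * (-(1 + (((k' + 1 : ℕ) : ℝ) - 1) / 2 / q) * uu v e b a)
        = -(1 + (((k' + 1 : ℕ) : ℝ) - 1) / 2 / q) * ∑ a, γ a * uu v e b a := by
      rw [Finset.mul_sum]
      apply Finset.sum_congr rfl; intro a _; ring
    rw [e2]; ring

include hk hN hq hq2 h1 h2 in
theorem ex_high (e : Fin (k * (k + 1)) ≃ Fin N × Bool) (t : ℕ) (ht : 1 ≤ t) :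
    cc k * (k * (k + 1) * t : ℕ) - 1 ≤
      lam (blow (k * (k + 1)) t (Rp v e) (Rp_symm v e)) (k + 1) := by
  have hμ := (mu_eq hk q hq2).resolve_right (not_le.mpr hq)
  have hlt : k < k * (k + 1) * t := by nlinarith
  have hNk : (N : ℝ) = (k : ℝ) * (k + 1) / 2 := by
    have h4 : (2 : ℝ) * N = (k : ℝ) * (k + 1) := by exact_mod_cast hN
    linarith
  have h := blow_low (k * (k + 1)) t k ht (Rp v e) (Rp_symm v e) (Rp_refl v h1 e) hlt
    (1 + ((k : ℝ) - 1) / 2 / q) (Fin.cons (fun _ => 1) (fun a b => uu v e b a)) ?_ ?_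
  · refine le_trans (le_of_eq ?_) h
    rw [hμ.1]
    push_cast
    ring
  · intro γ hγ
    simp only [Fin.sum_univ_succ (n := k), Fin.cons_zero, Fin.cons_succ, mul_one] at hγ
    have hk0 : (0 : ℝ) < (k : ℝ) * (k + 1) := by
      have : (2 : ℝ) ≤ k := by exact_mod_cast hk
      positivity
    have h0 : γ 0 = 0 := by
      have h3 : ∑ b, (γ 0 + ∑ a : Fin k, γ a.succ * uu v e b a) = 0 := by
        apply Finset.sum_eq_zero; intro b _; exact hγ b
      rw [Finset.sum_add_distrib, Finset.sum_comm] at h3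
      simp only [← Finset.mul_sum, uu_sum] at h3
      simp only [Finset.sum_const, Finset.card_univ, Fintype.card_fin, nsmul_eq_mul, mul_zero,
        add_zero] at h3
      push_cast at h3
      exact (mul_eq_zero.mp h3).resolve_left hk0.ne'
    have h3 : (fun a : Fin k => γ a.succ) = 0 := by
      apply uu_inj hk hN v q hq2 h1 h2 e
      intro b
      have := hγ b
      rw [h0, zero_add] at this
      exact this
    funext j
    refine Fin.cases h0 (fun c => ?_) j
    exact congrFun h3 c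
  · intro γ
    simp only [Fin.sum_univ_succ (n := k), Fin.cons_zero, Fin.cons_succ, mul_one]
    set μ := (1 + ((k : ℝ) - 1) / 2 / q) with hμd
    set g : Fin (k * (k + 1)) → ℝ := fun b => ∑ a : Fin k, γ a.succ * uu v e b a with hg
    have hsum : ∑ b, g b = 0 := by
      simp only [hg]
      rw [Finset.sum_comm]
      simp only [← Finset.mul_sum, uu_sum]
      simp
    have hR : ∀ b, ∑ b', (if Rp v e b b' then (γ 0 + g b') else 0) = N * γ 0 + μ * g b := by
      intro b
      have e1 : ∀ b', (if Rp v e b b' then (γ 0 + g b') else 0)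
          = γ 0 * (if Rp v e b b' then (1 : ℝ) else 0)
            + ∑ a : Fin k, γ a.succ * (if Rp v e b b' then uu v e b' a else 0) := by
        intro b'
        by_cases hr : Rp v e b b' = true <;> simp [hr, hg]
      simp only [e1, Finset.sum_add_distrib, ← Finset.mul_sum]
      rw [Finset.sum_comm]
      simp only [← Finset.mul_sum, Rp_sum hk hN v q hq hq2 h1 h2, Rp_one v q hq h1 h2]
      have e7 : ∑ c : Fin k, γ c.succ * (μ * uu v e b c) = μ * g b := by
        simp only [hg]
        rw [Finset.mul_sum]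
        apply Finset.sum_congr rfl; intro c _; ring
      rw [← hμd, e7]
      ring
    have hR' : ∀ b, (γ 0 + g b) * ∑ b', (if Rp v e b b' then (γ 0 + g b') else 0)
        = N * γ 0 ^ 2 + (N + μ) * γ 0 * g b + μ * g b ^ 2 := by
      intro b; rw [hR]; ring
    have hS : ∀ b, (γ 0 + g b) ^ 2 = γ 0 ^ 2 + 2 * γ 0 * g b + g b ^ 2 := by intro b; ring
    change μ * ∑ b, (γ 0 + g b) ^ 2 ≤ ∑ b, (γ 0 + g b) * ∑ b', (if Rp v e b b' then (γ 0 + g b') else 0)
    simp only [hR', hS, Finset.sum_add_distrib, ← Finset.mul_sum, hsum]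
    simp only [Finset.sum_const, Finset.card_univ, Fintype.card_fin, nsmul_eq_mul]
    have hle : μ ≤ N := by rw [hNk]; exact hμ.2
    have h5 : 0 ≤ ((k * (k + 1) : ℕ) : ℝ) * γ 0 ^ 2 := by positivity
    nlinarith [mul_nonneg (sub_nonneg.mpr hle) h5]

end sys

end Pool.Agent.Helper32K9.Hong
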