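import Pool.Agent.Helper32K9.Hong.Exist

set_option autoImplicit false

namespace Pool.Agent.Helper32K9.Hong

open Finset Pool.Agent.Helper91.Gen Pool.Agent.Helper91.Eig

/-- there are `k(k+1)/2` equiangular lines through the origin of `ℝ^k` -/
def MaxEquiangular (k : ℕ) : Prop :=
  ∃ (α : ℝ) (v : Fin (k * (k + 1) / 2) → Fin k → ℝ), α < 1 ∧ (∀ i, ∑ a, v i a ^ 2 = 1) ∧
    ∀ i j, i ≠ j → |∑ a, v i a * v j a| = α

/-- the common angle of a maximal system -/
theorem angle (k N : ℕ) (hk : 2 ≤ k) (hN : 2 * N = k * (k + 1)) (v : Fin N → Fin k → ℝ) (α : ℝ)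
    (hα : α < 1) (h1 : ∀ i, ∑ a, v i a ^ 2 = 1)
    (h2 : ∀ i j, i ≠ j → |∑ a, v i a * v j a| = α) : 0 < α ∧ α ^ 2 * (k + 2) = 1 := by
  classical
  have hk2 : (2 : ℝ) ≤ k := by exact_mod_cast hk
  have hNk : (N : ℝ) = (k : ℝ) * (k + 1) / 2 := by
    have h4 : (2 : ℝ) * N = (k : ℝ) * (k + 1) := by exact_mod_cast hN
    linarith
  have hN2 : 2 ≤ N := by nlinarith
  have hα0 : 0 ≤ α := by
    rw [← h2 ⟨0, by omega⟩ ⟨1, by omega⟩ (by simp [Fin.ext_iff])]
    exact abs_nonneg _
  have hα2 : α ^ 2 < 1 := by nlinarith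
  have hself : ∀ i, ∑ a, v i a * v i a = 1 := by intro i; simpa [sq] using h1 i
  have hsq : ∀ i j, (∑ a, v i a * v j a) ^ 2 = α ^ 2 + (if i = j then 1 - α ^ 2 else 0) := by
    intro i j
    by_cases h : i = j
    · subst h; rw [hself, if_pos rfl]; ring
    · rw [if_neg h, ← sq_abs, h2 i j h]; ring
  -- pairing with `v j ⊗ v j`
  have hpair : ∀ (c : Fin N → ℝ) (j : Fin N),
      ∑ a, ∑ b, (∑ i, c i * (v i a * v i b)) * (v j a * v j b)
        = α ^ 2 * (∑ i, c i) + (1 - α ^ 2) * c j := by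
    intro c j
    have e1 : ∀ i, ∑ a, ∑ b, (v i a * v i b) * (v j a * v j b) = (∑ a, v i a * v j a) ^ 2 := by
      intro i
      rw [sq, Finset.sum_mul_sum]
      apply Finset.sum_congr rfl; intro a _
      apply Finset.sum_congr rfl; intro b _; ring
    calc ∑ a, ∑ b, (∑ i, c i * (v i a * v i b)) * (v j a * v j b)
        = ∑ a, ∑ b, ∑ i, c i * ((v i a * v i b) * (v j a * v j b)) := by
          apply Finset.sum_congr rfl; intro a _
          apply Finset.sum_congr rfl; intro b _
          rw [Finset.sum_mul]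
          apply Finset.sum_congr rfl; intro i _; ring
      _ = ∑ a, ∑ i, ∑ b, c i * ((v i a * v i b) * (v j a * v j b)) :=
          Finset.sum_congr rfl fun a _ => Finset.sum_comm
      _ = ∑ i, ∑ a, ∑ b, c i * ((v i a * v i b) * (v j a * v j b)) := Finset.sum_comm
      _ = ∑ i, c i * (∑ a, v i a * v j a) ^ 2 := by
          apply Finset.sum_congr rfl; intro i _
          simp only [← Finset.mul_sum]
          rw [e1]
      _ = _ := by
          simp only [hsq, mul_add, Finset.sum_add_distrib]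
          rw [← Finset.sum_mul]
          simp
          ring
  let T : Fin N → (Sym2 (Fin k) → ℝ) := fun i =>
    Sym2.lift ⟨fun a b => v i a * v i b, fun a b => mul_comm _ _⟩
  have hT : ∀ i a b, T i s(a, b) = v i a * v i b := fun i a b => rfl
  have hli : LinearIndependent ℝ T := by
    rw [Fintype.linearIndependent_iff]
    intro c hc
    have h0 : ∀ a b, ∑ i, c i * (v i a * v i b) = 0 := by
      intro a b
      have := congrFun hc s(a, b)
      simpa [Finset.sum_apply, hT] using this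
    have h3 : ∀ j, α ^ 2 * (∑ i, c i) + (1 - α ^ 2) * c j = 0 := by
      intro j
      rw [← hpair c j]
      simp [h0]
    have h4 : ∑ i, c i = 0 := by
      have h5 : ∑ j : Fin N, (α ^ 2 * (∑ i, c i) + (1 - α ^ 2) * c j) = 0 :=
        Finset.sum_eq_zero fun j _ => h3 j
      simp only [Finset.sum_add_distrib, ← Finset.mul_sum, Finset.sum_const, Finset.card_univ,
        Fintype.card_fin, nsmul_eq_mul] at h5
      have h6 : (N * α ^ 2 + (1 - α ^ 2)) * ∑ i, c i = 0 := by linarith
      have h7 : 0 < N * α ^ 2 + (1 - α ^ 2) := by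
        have : (0 : ℝ) ≤ N * α ^ 2 := by positivity
        linarith
      exact (mul_eq_zero.mp h6).resolve_left h7.ne'
    intro j
    have h8 := h3 j
    rw [h4, mul_zero, zero_add] at h8
    exact (mul_eq_zero.mp h8).resolve_left (by linarith)
  have hcard : Fintype.card (Fin N) = Module.finrank ℝ (Sym2 (Fin k) → ℝ) := by
    rw [Module.finrank_fintype_fun_eq_card, Sym2.card, Fintype.card_fin, Fintype.card_fin,
      Nat.choose_two_right]
    have : (k + 1) * (k + 1 - 1) = k * (k + 1) := by simp [mul_comm]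
    rw [this, ← hN]
    omega
  have hspan : Submodule.span ℝ (Set.range T) = ⊤ := by
    have : Nonempty (Fin N) := ⟨⟨0, by omega⟩⟩
    exact hli.span_eq_top_of_card_eq_finrank hcard
  have hmem : (Sym2.lift ⟨fun a b : Fin k => if a = b then (1 : ℝ) else 0, fun a b => by
      simp only [eq_comm]⟩) ∈ Submodule.span ℝ (Set.range T) := by
    rw [hspan]; trivial
  rw [Submodule.mem_span_range_iff_exists_fun] at hmem
  obtain ⟨c, hc⟩ := hmem
  have hcab : ∀ a b, ∑ i, c i * (v i a * v i b) = if a = b then 1 else 0 := by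
    intro a b
    have := congrFun hc s(a, b)
    simpa [Finset.sum_apply, hT] using this
  have h3 : ∀ j, α ^ 2 * (∑ i, c i) + (1 - α ^ 2) * c j = 1 := by
    intro j
    rw [← hpair c j]
    simp only [hcab]
    simp [hself]
  have htr : ∑ i, c i = k := by
    have h4 : ∑ a : Fin k, ∑ i, c i * (v i a * v i a) = k := by simp [hcab]
    rw [Finset.sum_comm] at h4
    simp only [← Finset.mul_sum, hself, mul_one] at h4
    exact h4
  have h5 : ∑ j : Fin N, (α ^ 2 * (∑ i, c i) + (1 - α ^ 2) * c j) = (N : ℝ) := by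
    simp only [h3]; simp
  simp only [Finset.sum_add_distrib, ← Finset.mul_sum, htr, Finset.sum_const, Finset.card_univ,
    Fintype.card_fin, nsmul_eq_mul] at h5
  rw [hNk] at h5
  have h6 : ((k : ℝ) - 1) * k * (α ^ 2 * (k + 2) - 1) = 0 := by
    nlinarith
  have h7 : α ^ 2 * ((k : ℝ) + 2) = 1 := by
    rcases mul_eq_zero.mp h6 with h | h
    · rcases mul_eq_zero.mp h with h | h <;> linarith
    · linarith
  refine ⟨?_, h7⟩
  rcases hα0.lt_or_eq with h | h
  · exact h
  · rw [← h] at h7; norm_num at h7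

/-- a system of vectors of equal length in dimension `k` -/
theorem mk_equi {ι : Type} [Fintype ι] (k : ℕ) (hc : Fintype.card ι = k * (k + 1) / 2)
    (u : ι → Fin k → ℝ) (β γ : ℝ) (hβ : 0 < β) (hγ : γ < β)
    (h1 : ∀ i, ∑ a, u i a * u i a = β) (h2 : ∀ i j, i ≠ j → |∑ a, u i a * u j a| = γ) :
    MaxEquiangular k := by
  let e : Fin (k * (k + 1) / 2) ≃ ι := (Fintype.equivFinOfCardEq hc).symm
  have hs : Real.sqrt β * Real.sqrt β = β := Real.mul_self_sqrt hβ.le
  have hs0 : 0 < Real.sqrt β := Real.sqrt_pos.mpr hβ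
  refine ⟨γ / β, fun i a => u (e i) a / Real.sqrt β, by rw [div_lt_one hβ]; exact hγ, ?_, ?_⟩
  · intro i
    have : ∀ a, (u (e i) a / Real.sqrt β) ^ 2 = (u (e i) a * u (e i) a) / β := by
      intro a; rw [div_pow, sq, sq, hs]
    simp only [this, ← Finset.sum_div, h1]
    exact div_self hβ.ne'
  · intro i j hij
    have : ∀ a, u (e i) a / Real.sqrt β * (u (e j) a / Real.sqrt β) = (u (e i) a * u (e j) a) / β := by
      intro a; rw [div_mul_div_comm, hs]
    simp only [this, ← Finset.sum_div]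
    rw [abs_div, h2 _ _ (fun h => hij (e.injective h)), abs_of_pos hβ]

theorem inner_sum' {ι : Type} [Fintype ι] (f g : EuclideanSpace ℝ ι) :
    inner ℝ f g = ∑ j, f.ofLp j * g.ofLp j := inner_sum f g

/-- a system of vectors of equal length in a hyperplane of dimension `k` -/
theorem mk_equi_hyper {ι : Type} [Fintype ι] (k : ℕ) (hc : Fintype.card ι = k * (k + 1) / 2)
    (u : ι → Fin (k + 1) → ℝ) (s : Fin (k + 1) → ℝ) (hs : s ≠ 0) (hus : ∀ i, ∑ a, u i a * s a = 0)
    (β γ : ℝ) (hβ : 0 < β) (hγ : γ < β)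
    (h1 : ∀ i, ∑ a, u i a * u i a = β) (h2 : ∀ i j, i ≠ j → |∑ a, u i a * u j a| = γ) :
    MaxEquiangular k := by
  let s' : EuclideanSpace ℝ (Fin (k + 1)) := WithLp.toLp 2 s
  have hs' : s' ≠ 0 := by
    intro h
    apply hs
    have := congrArg WithLp.ofLp h
    simpa [s'] using this
  let K : Submodule ℝ (EuclideanSpace ℝ (Fin (k + 1))) := (Submodule.span ℝ {s'})ᗮ
  have hK : Module.finrank ℝ K = k := by
    have h1 := (Submodule.span ℝ {s'}).finrank_add_finrank_orthogonal
    have h2 : Module.finrank ℝ (Submodule.span ℝ {s'}) = 1 := finrank_span_singleton hs'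
    have h3 : Module.finrank ℝ (EuclideanSpace ℝ (Fin (k + 1))) = k + 1 := by simp
    simp only [K]
    omega
  let b : OrthonormalBasis (Fin k) ℝ K := (stdOrthonormalBasis ℝ K).reindex (finCongr hK)
  have hmem : ∀ i, (WithLp.toLp 2 (u i) : EuclideanSpace ℝ (Fin (k + 1))) ∈ K := by
    intro i
    rw [Submodule.mem_orthogonal_singleton_iff_inner_left, inner_sum']
    exact hus i
  let w : ι → K := fun i => ⟨WithLp.toLp 2 (u i), hmem i⟩
  have hip : ∀ i j, ∑ a, inner ℝ (w i) (b a) * inner ℝ (w j) (b a) = ∑ a, u i a * u j a := by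
    intro i j
    have h3 := b.sum_inner_mul_inner (w i) (w j)
    rw [Submodule.coe_inner, inner_sum'] at h3
    have h4 : ∑ a, inner ℝ (w i) (b a) * inner ℝ (w j) (b a)
        = ∑ a, inner ℝ (w i) (b a) * inner ℝ (b a) (w j) := by
      apply Finset.sum_congr rfl; intro a _
      rw [real_inner_comm (b a) (w j)]
    rw [h4, h3]
  apply mk_equi k hc (fun i a => inner ℝ (w i) (b a)) β γ hβ hγ
  · intro i; rw [hip, h1]
  · intro i j hij; rw [hip, h2 i j hij]

theorem max2 : MaxEquiangular 2 := by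
  have hs : Real.sqrt 3 * Real.sqrt 3 = 3 := Real.mul_self_sqrt (by norm_num)
  apply mk_equi (ι := Fin 3) 2 (by simp)
    (![![2, 0], ![-1, Real.sqrt 3], ![-1, -Real.sqrt 3]]) 4 2 (by norm_num) (by norm_num)
  · intro i
    fin_cases i <;> simp [Fin.sum_univ_two] <;> norm_num
  · intro i j hij
    fin_cases i <;> fin_cases j <;> simp [Fin.sum_univ_two] at hij ⊢ <;> norm_num

theorem max3 : MaxEquiangular 3 := by
  have hs : Real.sqrt 5 * Real.sqrt 5 = 5 := Real.mul_self_sqrt (by norm_num)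
  have h5 : 0 < Real.sqrt 5 := Real.sqrt_pos.mpr (by norm_num)
  set p : ℝ := (1 + Real.sqrt 5) / 2 with hp
  have hp0 : 0 < p := by rw [hp]; positivity
  have hpp : p * p = p + 1 := by rw [hp]; nlinarith
  apply mk_equi (ι := Fin 6) 3 (by simp)
    (![![0, 1, p], ![0, 1, -p], ![1, p, 0], ![1, -p, 0], ![p, 0, 1], ![-p, 0, 1]]) (p + 2) p
    (by positivity) (by linarith)
  · intro i
    fin_cases i <;> simp [Fin.sum_univ_three] <;> linarith
  · have e1 : |1 - p * p| = p := by
      rw [show 1 - p * p = -p by linarith, abs_neg, abs_of_pos hp0]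
    have e2 : |1 + -(p * p)| = p := by
      rw [show 1 + -(p * p) = -p by linarith, abs_neg, abs_of_pos hp0]
    have e3 : |-(p * p) + 1| = p := by
      rw [show -(p * p) + 1 = -p by linarith, abs_neg, abs_of_pos hp0]
    intro i j hij
    fin_cases i <;> fin_cases j <;> simp [Fin.sum_univ_three, abs_of_pos hp0, e2, e3] at hij ⊢

end Pool.Agent.Helper32K9.Hong
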