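import Pool.Agent.Helper32K9.Hong.Inst

set_option autoImplicit false

namespace Pool.Agent.Helper32K9.Hong

open Finset
open Pool.Agent.Results.MP_b9b22b_co.SharpUpper (in28)

/-- coordinates of the 28 vectors in dimension eight -/
def w28 (i : Fin 28) (c : Fin 8) : ℤ := if in28 i c then 3 else -1

theorem w28_self : ∀ i, ∑ c, w28 i c * w28 i c = 24 := by decide +kernel
theorem w28_one : ∀ i, ∑ c, w28 i c = 0 := by decide +kernel
theorem w28_ip : ∀ i j, i ≠ j → |∑ c, w28 i c * w28 j c| = 8 := by decide +kernel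

theorem max7 : MaxEquiangular 7 := by
  apply mk_equi_hyper (ι := Fin 28) 7 (by simp) (fun i c => (w28 i c : ℝ)) (fun _ => 1)
    (by intro h; have := congrFun h 0; norm_num at this) ?_ 24 8 (by norm_num) (by norm_num)
  · intro i
    have := w28_self i
    exact_mod_cast this
  · intro i j hij
    have := w28_ip i j hij
    exact_mod_cast this
  · intro i
    have := w28_one i
    simp only [mul_one]
    exact_mod_cast this

/-! ### dimension 23: points and blocks of the Steiner system on 23 points -/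

/-- orbit representatives of the 253 blocks under the cyclic shift, as bit masks -/
def reps : List ℕ := [2787, 13481, 18493, 45333, 52609, 82757, 99367, 138259, 139865, 207137, 332337]

/-- membership of a point in the representative block -/
def blk (b : Fin 11) (c : ZMod 23) : Bool := (reps.getD b.val 0).testBit c.val

/-- indicator -/
def bi (b : Fin 11) (c : ZMod 23) : ℤ := if blk b c then 1 else 0

theorem bi_sum : ∀ b, ∑ c, bi b c = 7 := by decide +kernel

theorem bi_ip : ∀ b b' : Fin 11, ∀ d : ZMod 23,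
    (b = b' ∧ d = 0) ∨ ∑ c, bi b c * bi b' (c + d) = 1 ∨ ∑ c, bi b c * bi b' (c + d) = 3 := by
  decide +kernel

theorem bi_sq (b : Fin 11) (c : ZMod 23) : bi b c * bi b c = bi b c := by
  unfold bi; split_ifs <;> norm_num

/-- index set of the 276 lines -/
abbrev I276 : Type := ZMod 23 ⊕ (Fin 11 × ZMod 23)

/-- last 23 coordinates -/
def cz (x : I276) (c : ZMod 23) : ℤ :=
  match x with
  | Sum.inl p => -1 + 8 * (if c = p then 1 else 0)
  | Sum.inr (b, s) => -1 + 4 * bi b (c - s)

/-- first coordinate -/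
def c0 (x : I276) : ℤ :=
  match x with
  | Sum.inl _ => 3
  | Sum.inr _ => -1

theorem sum_shift (f : ZMod 23 → ℤ) (s : ZMod 23) : ∑ c, f (c - s) = ∑ c, f c :=
  (Equiv.subRight s).sum_comp f

theorem sum_const23 (a : ℤ) : ∑ _c : ZMod 23, a = 23 * a := by
  simp

theorem cz_sum (x : I276) : ∑ c, cz x c = match x with
    | Sum.inl _ => -15
    | Sum.inr _ => 5 := by
  rcases x with p | ⟨b, s⟩
  · simp only [cz, Finset.sum_add_distrib, sum_const23, ← Finset.mul_sum]
    simp
  · simp only [cz, Finset.sum_add_distrib, sum_const23, ← Finset.mul_sum]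
    rw [sum_shift (fun c => bi b c), bi_sum]
    norm_num

theorem pp (p p' : ZMod 23) : ∑ c, cz (Sum.inl p) c * cz (Sum.inl p') c
    = 7 + 64 * (if p = p' then 1 else 0) := by
  have e : ∀ c, cz (Sum.inl p) c * cz (Sum.inl p') c
      = 1 - 8 * (if c = p then 1 else 0) - 8 * (if c = p' then 1 else 0)
        + 64 * (if c = p then (if c = p' then 1 else 0) else 0) := by
    intro c
    simp only [cz]
    split_ifs <;> norm_num
  simp only [e, Finset.sum_add_distrib, Finset.sum_sub_distrib, sum_const23, ← Finset.mul_sum]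
  simp

theorem pb (p : ZMod 23) (b : Fin 11) (s : ZMod 23) :
    ∑ c, cz (Sum.inl p) c * cz (Sum.inr (b, s)) c = -13 + 32 * bi b (p - s) := by
  have e : ∀ c, cz (Sum.inl p) c * cz (Sum.inr (b, s)) c
      = 1 - 8 * (if c = p then 1 else 0) - 4 * bi b (c - s)
        + 32 * (if c = p then bi b (c - s) else 0) := by
    intro c
    simp only [cz]
    split_ifs <;> ring
  simp only [e, Finset.sum_add_distrib, Finset.sum_sub_distrib, sum_const23, ← Finset.mul_sum]
  rw [sum_shift (fun c => bi b c), bi_sum]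
  simp

theorem bb (b b' : Fin 11) (s s' : ZMod 23) :
    ∑ c, cz (Sum.inr (b, s)) c * cz (Sum.inr (b', s')) c
      = -33 + 16 * ∑ c, bi b c * bi b' (c + (s - s')) := by
  have e : ∀ c, cz (Sum.inr (b, s)) c * cz (Sum.inr (b', s')) c
      = 1 - 4 * bi b (c - s) - 4 * bi b' (c - s')
        + 16 * (bi b (c - s) * bi b' ((c - s) + (s - s'))) := by
    intro c
    have : (c - s) + (s - s') = c - s' := by ring
    rw [this]
    simp only [cz]
    ring
  simp only [e, Finset.sum_add_distrib, Finset.sum_sub_distrib, sum_const23, ← Finset.mul_sum]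
  rw [sum_shift (fun c => bi b c), sum_shift (fun c => bi b' c),
    sum_shift (fun c => bi b c * bi b' (c + (s - s'))), bi_sum, bi_sum]
  norm_num

theorem ip_self (x : I276) : c0 x * c0 x + ∑ c, cz x c * cz x c = 80 := by
  rcases x with p | ⟨b, s⟩
  · rw [pp]; simp [c0]
  · rw [bb]
    have : ∑ c, bi b c * bi b (c + (s - s)) = 7 := by
      rw [← bi_sum b]
      apply Finset.sum_congr rfl; intro c _
      rw [sub_self, add_zero, bi_sq]
    rw [this]; simp [c0]

theorem bi01 (b : Fin 11) (c : ZMod 23) : bi b c = 0 ∨ bi b c = 1 := by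
  unfold bi; split_ifs <;> simp

theorem ip_ne (x y : I276) (h : x ≠ y) : |c0 x * c0 y + ∑ c, cz x c * cz y c| = 16 := by
  rcases x with p | ⟨b, s⟩ <;> rcases y with p' | ⟨b', s'⟩
  · rw [pp]
    have : p ≠ p' := fun h' => h (by rw [h'])
    simp [c0, this]
  · rw [pb]
    rcases bi01 b' (p - s') with h' | h' <;> rw [h'] <;> simp [c0]
  · have e : ∑ c, cz (Sum.inr (b, s)) c * cz (Sum.inl p') c
        = ∑ c, cz (Sum.inl p') c * cz (Sum.inr (b, s)) c :=
      Finset.sum_congr rfl fun c _ => mul_comm _ _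
    rw [e, pb]
    rcases bi01 b (p' - s) with h' | h' <;> rw [h'] <;> simp [c0]
  · rw [bb]
    rcases bi_ip b b' (s - s') with ⟨h1, h2⟩ | h1 | h1
    · exfalso
      apply h
      rw [h1, sub_eq_zero.mp h2]
    · rw [h1]; simp [c0]
    · rw [h1]; simp [c0]

theorem ip_s (x : I276) : c0 x * 5 + ∑ c, cz x c = 0 := by
  rcases x with p | ⟨b, s⟩
  · rw [cz_sum]; simp [c0]
  · rw [cz_sum]; simp [c0]

theorem max23 : MaxEquiangular 23 := by
  apply mk_equi_hyper (ι := I276) 23 (by simp [I276, ZMod.card])
    (fun x => Fin.cons (c0 x : ℝ) (fun c : Fin 23 => (cz x (c : ZMod 23) : ℝ)))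
    (Fin.cons 5 (fun _ => 1))
    (by intro h; have := congrFun h 0; norm_num at this) ?_ 80 16 (by norm_num) (by norm_num)
  · intro x
    rw [Fin.sum_univ_succ]
    simp only [Fin.cons_zero, Fin.cons_succ]
    have := ip_self x
    exact_mod_cast this
  · intro x y h
    rw [Fin.sum_univ_succ]
    simp only [Fin.cons_zero, Fin.cons_succ]
    have := ip_ne x y h
    exact_mod_cast this
  · intro x
    rw [Fin.sum_univ_succ]
    simp only [Fin.cons_zero, Fin.cons_succ, mul_one]
    have := ip_s x
    have h2 : ((c0 x : ℝ) * 5 + ∑ c : ZMod 23, (cz x c : ℝ)) = 0 := by exact_mod_cast this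
    exact h2

end Pool.Agent.Helper32K9.Hong
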