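import Pool.Agent.Results.MP_b9b22b_co.SharpUpper
import Pool.Agent.Helper32K9.Hong.AbsEq

set_option autoImplicit false

namespace Pool.Agent.Helper32K9.Hong

open Finset Pool.Agent.Helper91.Gen Pool.Agent.Helper91.Eig
open Pool.Agent.Results.MP_b9b22b_co.SharpUpper (lam bigM herm lam_eq)

open Classical in
theorem key_lower {n : ℕ} (G : SimpleGraph (Fin n)) (k : ℕ) (hk1 : 1 ≤ k) (hk : k ≤ n) :
    ∃ x : Fin k → Fin n → ℝ, (∀ a b, ∑ i, x a i * x b i = if a = b then 1 else 0) ∧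
      -(2 * k * lam G (n - k + 1)) ≤ ∑ i, ∑ j, |∑ a, x a i * x a j| := by
  have hkn : n - k < Fintype.card (Fin n) := by simp; omega
  rw [lam_eq G (n - k) hkn]
  set μ := (herm G).eigenvalues₀ ⟨n - k, hkn⟩ with hμ
  let idx : Fin k → Fin (Fintype.card (Fin n)) := fun a => ⟨n - k + a, by
    have := a.2; simp; omega⟩
  have hidx : ∀ a b, idx a = idx b ↔ a = b := by
    intro a b
    constructor
    · intro h
      have := congrArg Fin.val h
      simp only [idx] at this
      ext; omega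
    · rintro rfl; rfl
  refine ⟨fun a => ev (herm G) (idx a), ?_, ?_⟩
  · intro a b
    rw [ev_orth]
    simp only [hidx]
  let A := G.adjMatrix ℝ
  let x : Fin k → Fin n → ℝ := fun a => ev (herm G) (idx a)
  have hq : ∀ a, qf A (x a) ≤ μ := by
    intro a
    rw [qf_eq]
    have h1 : ∀ u, x a u * ∑ v, A u v * x a v = (herm G).eigenvalues₀ (idx a) * (x a u * x a u) := by
      intro u
      have := ev_eig (herm G) (idx a) u
      simp only [x, A]
      rw [this]; ring
    rw [Finset.sum_congr rfl fun u _ => h1 u, ← Finset.mul_sum]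
    have h2 : ∑ u, x a u * x a u = 1 := by
      have := ev_orth (herm G) (idx a) (idx a)
      simpa [x] using this
    rw [h2, mul_one]
    apply (herm G).eigenvalues₀_antitone
    rw [Fin.le_def]
    simp only [idx]
    omega
  have hsumQ : ∑ a, qf A (x a) ≤ k * μ := by
    calc ∑ a, qf A (x a) ≤ ∑ a : Fin k, μ := Finset.sum_le_sum fun a _ => hq a
      _ = k * μ := by simp
  let P : Fin n → Fin n → ℝ := fun i j => ∑ a, x a i * x a j
  have hQP : ∑ a, qf A (x a) = ∑ i, ∑ j, A i j * P i j := by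
    simp only [qf, P, Finset.mul_sum]
    rw [Finset.sum_comm]
    apply Finset.sum_congr rfl; intro i _
    rw [Finset.sum_comm]
  have hP0 : 0 ≤ ∑ i, ∑ j, P i j := by
    have e : ∑ i, ∑ j, P i j = ∑ a, (∑ i, x a i) ^ 2 := by
      simp only [P]
      have h1 : ∀ i, ∑ j, ∑ a, x a i * x a j = ∑ a, x a i * ∑ j, x a j := by
        intro i
        rw [Finset.sum_comm]
        apply Finset.sum_congr rfl; intro a _
        rw [Finset.mul_sum]
      simp only [h1]
      rw [Finset.sum_comm]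
      apply Finset.sum_congr rfl; intro a _
      rw [← Finset.sum_mul, sq]
    rw [e]
    exact Finset.sum_nonneg fun a _ => sq_nonneg _
  have hlow : ∀ i j, (P i j - |P i j|) / 2 ≤ A i j * P i j := by
    intro i j
    have h1 := le_abs_self (P i j)
    have h2 := neg_abs_le (P i j)
    have hA01 : A i j = if G.Adj i j then 1 else 0 := by
      simp only [A, SimpleGraph.adjMatrix_apply]
    rw [hA01]
    by_cases hadj : G.Adj i j
    · simp only [hadj, if_true]; linarith
    · simp only [hadj, if_false]; linarith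
  have hmain : ∑ i, ∑ j, (P i j - |P i j|) / 2 ≤ k * μ := by
    calc _ ≤ ∑ i, ∑ j, A i j * P i j :=
          Finset.sum_le_sum fun i _ => Finset.sum_le_sum fun j _ => hlow i j
      _ = ∑ a, qf A (x a) := hQP.symm
      _ ≤ _ := hsumQ
  have hsplit : ∑ i, ∑ j, (P i j - |P i j|) / 2 = (∑ i, ∑ j, P i j - ∑ i, ∑ j, |P i j|) / 2 := by
    simp only [← Finset.sum_div, Finset.sum_sub_distrib]
  rw [hsplit] at hmain
  change -(2 * k * μ) ≤ ∑ i, ∑ j, |P i j|
  linarith

open Classical in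
theorem key_upper {n : ℕ} (G : SimpleGraph (Fin n)) (k : ℕ) (hk1 : 1 ≤ k) (hk : k < n) :
    ∃ x : Fin k → Fin n → ℝ, (∀ a b, ∑ i, x a i * x b i = if a = b then 1 else 0) ∧
      2 * k * (lam G (k + 1) + 1) ≤ ∑ i, ∑ j, |∑ a, x a i * x a j| := by
  have hk' : k < Fintype.card (Fin n) := by simpa using hk
  rw [lam_eq G k hk']
  obtain ⟨x, hx, hs, hQ⟩ := top_space (herm G) k hk'
  refine ⟨x, hx, ?_⟩
  set μ := (herm G).eigenvalues₀ ⟨k, hk'⟩ with hμ
  let A := G.adjMatrix ℝ
  have hsumQ : (k : ℝ) * μ ≤ ∑ a, qf A (x a) := by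
    calc (k : ℝ) * μ = ∑ a : Fin k, μ := by simp
      _ ≤ _ := Finset.sum_le_sum fun a _ => hQ a
  let P : Fin n → Fin n → ℝ := fun i j => ∑ a, x a i * x a j
  have hQP : ∑ a, qf A (x a) = ∑ i, ∑ j, A i j * P i j := by
    simp only [qf, P, Finset.mul_sum]
    rw [Finset.sum_comm]
    apply Finset.sum_congr rfl; intro i _
    rw [Finset.sum_comm]
  have hP1 : ∑ i, ∑ j, P i j = 0 := by
    have : ∀ i, ∑ j, P i j = ∑ a, x a i * ∑ j, x a j := by
      intro i
      simp only [P, Finset.mul_sum]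
      rw [Finset.sum_comm]
    simp only [this, hs]
    simp
  have hPtr : ∑ i, P i i = k := by
    simp only [P]
    rw [Finset.sum_comm]
    simp [hx]
  have hcomp : ∑ i, ∑ j, (1 - (if i = j then (1 : ℝ) else 0) - A i j) * P i j
      = 0 - k - ∑ i, ∑ j, A i j * P i j := by
    have hexp : ∀ i j, (1 - (if i = j then (1 : ℝ) else 0) - A i j) * P i j
        = P i j - (if i = j then P i j else 0) - A i j * P i j := by
      intro i j
      by_cases h : i = j
      · simp only [h, if_true]; ring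
      · simp only [h, if_false]; ring
    simp only [hexp, Finset.sum_sub_distrib, hP1]
    simp only [Finset.sum_ite_eq, Finset.mem_univ, if_true, hPtr]
  have hlow : ∀ i j, -((|P i j| - P i j) / 2) ≤ (1 - (if i = j then (1 : ℝ) else 0) - A i j) * P i j := by
    intro i j
    have h1 := le_abs_self (P i j)
    have h2 := neg_abs_le (P i j)
    have hA01 : A i j = if G.Adj i j then 1 else 0 := by
      simp only [A, SimpleGraph.adjMatrix_apply]
    rw [hA01]
    by_cases hij : i = j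
    · subst hij
      simp
      linarith
    · by_cases hadj : G.Adj i j
      · simp [hij, hadj]
        linarith
      · simp only [hij, hadj, if_false, sub_zero, one_mul]
        linarith
  have hmain : -((∑ i, ∑ j, |P i j|) / 2) ≤ 0 - k - k * μ := by
    calc -((∑ i, ∑ j, |P i j|) / 2)
        = ∑ i, ∑ j, -((|P i j| - P i j) / 2) := by
          simp only [Finset.sum_neg_distrib, ← Finset.sum_div, Finset.sum_sub_distrib, hP1]
          ring
      _ ≤ _ := Finset.sum_le_sum fun i _ => Finset.sum_le_sum fun j _ => hlow i j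
      _ = _ := hcomp
      _ ≤ _ := by rw [← hQP]; linarith
  change 2 * k * (μ + 1) ≤ ∑ i, ∑ j, |P i j|
  linarith

/-- the extremal constant -/
noncomputable def cc (k : ℕ) : ℝ := (2 + ((k : ℝ) - 1) * Real.sqrt (k + 2)) / (2 * k * (k + 1))

theorem cc_eq (k : ℕ) (hk : 2 ≤ k) : ∃ q : ℝ, q = 1 / Real.sqrt ((k : ℝ) + 2) ∧ 0 < q ∧
    q ^ 2 * (k + 2) = 1 ∧ (1 + 2 * q) * (1 - q) / (q * (1 + q)) = 2 * k * cc k := by
  set s : ℝ := Real.sqrt ((k : ℝ) + 2) with hs
  have hk2 : (2 : ℝ) ≤ k := by exact_mod_cast hk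
  have hs0 : 0 < s := Real.sqrt_pos.mpr (by positivity)
  have hs2 : s ^ 2 = (k : ℝ) + 2 := Real.sq_sqrt (by positivity)
  have hs1 : 1 < s := by nlinarith
  refine ⟨1 / s, rfl, by positivity, by rw [← hs2]; field_simp, ?_⟩
  have hk0 : (0 : ℝ) < k := by linarith
  have hkne : (k : ℝ) ≠ 0 := hk0.ne'
  have hk1 : (k : ℝ) + 1 ≠ 0 := by positivity
  have hsk : (k : ℝ) = s ^ 2 - 2 := by linarith
  have hs1ne : s + 1 ≠ 0 := by positivity
  have hs1' : s ^ 2 - 1 ≠ 0 := by nlinarith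
  have e4 : (1 + 2 * (1 / s)) * (1 - 1 / s) / (1 / s * (1 + 1 / s)) = (s + 2) * (s - 1) / (s + 1) := by
    field_simp
  rw [e4]
  have e5 : 2 * (k : ℝ) * cc k = (2 + ((k : ℝ) - 1) * s) / (k + 1) := by
    unfold cc
    rw [← hs]
    field_simp
  rw [e5, div_eq_div_iff hs1ne hk1, hsk]
  ring

theorem lower_bound {n : ℕ} (G : SimpleGraph (Fin n)) (k : ℕ) (hk2 : 2 ≤ k) (hk : k ≤ n) :
    -(cc k * n) ≤ lam G (n - k + 1) := by
  obtain ⟨q, -, hq, hq2, hL⟩ := cc_eq k hk2
  obtain ⟨x, hx, h⟩ := key_lower G k (by omega) hk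
  have h2 := abs_sum x hk2 hx q hq hq2
  rw [hL] at h2
  simp only [Fintype.card_fin] at h2
  have hkpos : (0 : ℝ) < k := by exact_mod_cast (by omega : 0 < k)
  have h3 : (2 * k) * -(lam G (n - k + 1)) ≤ (2 * k) * (cc k * n) := by
    have := h.trans h2
    linarith
  have := le_of_mul_le_mul_left h3 (by positivity)
  linarith

theorem upper_bound {n : ℕ} (G : SimpleGraph (Fin n)) (k : ℕ) (hk2 : 2 ≤ k) (hk : k < n) :
    lam G (k + 1) ≤ cc k * n - 1 := by
  obtain ⟨q, -, hq, hq2, hL⟩ := cc_eq k hk2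
  obtain ⟨x, hx, h⟩ := key_upper G k (by omega) hk
  have h2 := abs_sum x hk2 hx q hq hq2
  rw [hL] at h2
  simp only [Fintype.card_fin] at h2
  have hkpos : (0 : ℝ) < k := by exact_mod_cast (by omega : 0 < k)
  have h3 : (2 * k) * (lam G (k + 1) + 1) ≤ (2 * k) * (cc k * n) := by
    have := h.trans h2
    linarith
  have := le_of_mul_le_mul_left h3 (by positivity)
  linarith

theorem lower_eq {n : ℕ} (G : SimpleGraph (Fin n)) (k : ℕ) (hk2 : 2 ≤ k) (hk : k ≤ n)
    (heq : lam G (n - k + 1) = -(cc k * n)) :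
    ∃ v : Fin (k * (k + 1) / 2) → Fin k → ℝ, (∀ i, ∑ a, v i a ^ 2 = 1) ∧
      ∀ i j, i ≠ j → |∑ a, v i a * v j a| = 1 / Real.sqrt (k + 2) := by
  obtain ⟨q, hqd, hq, hq2, hL⟩ := cc_eq k hk2
  obtain ⟨x, hx, h⟩ := key_lower G k (by omega) hk
  rw [← hqd]
  apply abs_eq x hk2 hx q hq hq2
  rw [hL]
  simp only [Fintype.card_fin]
  rw [heq] at h
  linarith

theorem upper_eq {n : ℕ} (G : SimpleGraph (Fin n)) (k : ℕ) (hk2 : 2 ≤ k) (hk : k < n)
    (heq : lam G (k + 1) = cc k * n - 1) :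
    ∃ v : Fin (k * (k + 1) / 2) → Fin k → ℝ, (∀ i, ∑ a, v i a ^ 2 = 1) ∧
      ∀ i j, i ≠ j → |∑ a, v i a * v j a| = 1 / Real.sqrt (k + 2) := by
  obtain ⟨q, hqd, hq, hq2, hL⟩ := cc_eq k hk2
  obtain ⟨x, hx, h⟩ := key_upper G k (by omega) hk
  rw [← hqd]
  apply abs_eq x hk2 hx q hq hq2
  rw [hL]
  simp only [Fintype.card_fin]
  rw [heq] at h
  linarith

end Pool.Agent.Helper32K9.Hong
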